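import Mathlib
import Pool.Agent.Helper20.Dense.Poly

/-!
Precolouring: a set of large chromatic number contains a highly connected set of large chromatic
number.
-/

open Finset
open scoped Classical

namespace Pool.Agent.Helper20.Dense

variable {V : Type*} [Fintype V] [DecidableEq V] (G : SimpleGraph V)

lemma exists_split {Z : Finset V} (h : ¬ Conn G Z) :
    ∃ A B : Finset V, Z = A ∪ B ∧ Disjoint A B ∧ A.Nonempty ∧ B.Nonempty ∧
      ∀ x ∈ A, ∀ y ∈ B, ¬ G.Adj x y := by
  unfold Conn at h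
  push Not at h
  obtain ⟨a, ha, b, hb, hab⟩ := h
  refine ⟨Z.filter (fun z => Reach G Z a z), Z.filter (fun z => ¬ Reach G Z a z), ?_, ?_, ?_, ?_, ?_⟩
  · rw [Finset.filter_union_filter_not_eq]
  · exact Finset.disjoint_filter_filter_not _ _ _
  · exact ⟨a, Finset.mem_filter.mpr ⟨ha, Relation.ReflTransGen.refl⟩⟩
  · exact ⟨b, Finset.mem_filter.mpr ⟨hb, hab⟩⟩
  · intro x hx y hy hxy
    rw [Finset.mem_filter] at hx hy
    exact hy.2 (hx.2.tail ⟨hxy, hy.1⟩)

/-- the extension property for precolourings -/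
def ExtP (M : ℕ) (Y A : Finset V) (φ : V → ℕ) (P : Finset (V × ℕ)) : Prop :=
  ∃ ψ : V → ℕ, (∀ y ∈ Y, ψ y < M) ∧ (∀ y ∈ Y, ∀ z ∈ Y, G.Adj y z → ψ y ≠ ψ z) ∧
    (∀ a ∈ A, ψ a = φ a) ∧ ∀ p ∈ P, p.1 ∈ Y → p.1 ∉ A → ψ p.1 ≠ p.2

/-- the case of small chromatic number -/
lemma extP_small {c M : ℕ} {Y A : Finset V} {φ : V → ℕ} {P : Finset (V × ℕ)} (hAY : A ⊆ Y)
    (hφ : ∀ a ∈ A, φ a < M) (hφp : ∀ a ∈ A, ∀ b ∈ A, G.Adj a b → φ a ≠ φ b)
    (hM : c + (A.card + P.card) ≤ M) (hc : chi G Y ≤ c) : ExtP G M Y A φ P := by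
  obtain ⟨κ, hκ1, hκ2⟩ := (chi_le_iff G).1 hc
  set U : Finset ℕ := A.image φ ∪ P.image Prod.snd with hU
  have hUc : U.card ≤ A.card + P.card :=
    (Finset.card_union_le _ _).trans (Nat.add_le_add Finset.card_image_le Finset.card_image_le)
  have h1 : c ≤ ((Finset.range M) \ U).card := by
    have h2 := Finset.le_card_sdiff U (Finset.range M)
    rw [Finset.card_range] at h2
    omega
  obtain ⟨T, hT, hTc⟩ := Finset.exists_subset_card_eq h1
  obtain ⟨e⟩ : Nonempty (Fin c ≃ T) := by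
    refine ⟨(Finset.equivFinOfCardEq hTc).symm⟩
  have hcol : ∀ y ∈ Y, κ y < c := hκ1
  refine ⟨fun v => if v ∈ A then φ v else if h : κ v < c then (e ⟨κ v, h⟩ : ℕ) else 0, ?_, ?_, ?_, ?_⟩
  · intro y hy
    by_cases hyA : y ∈ A
    · simp only [if_pos hyA]
      exact hφ y hyA
    · simp only [if_neg hyA, dif_pos (hcol y hy)]
      have h2 := hT (e ⟨κ y, hcol y hy⟩).2
      exact Finset.mem_range.1 (Finset.mem_sdiff.1 h2).1
  · intro y hy z hz hyz
    have hpal : ∀ x (hx : x ∈ Y), ∀ a ∈ A, φ a ≠ (e ⟨κ x, hcol x hx⟩ : ℕ) := by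
      intro x hx a ha heq
      have h2 := hT (e ⟨κ x, hcol x hx⟩).2
      apply (Finset.mem_sdiff.1 h2).2
      rw [hU, Finset.mem_union]
      left
      rw [← heq]
      exact Finset.mem_image_of_mem φ ha
    by_cases hyA : y ∈ A <;> by_cases hzA : z ∈ A
    · simp only [if_pos hyA, if_pos hzA]
      exact hφp y hyA z hzA hyz
    · simp only [if_pos hyA, if_neg hzA, dif_pos (hcol z hz)]
      exact hpal z hz y hyA
    · simp only [if_neg hyA, if_pos hzA, dif_pos (hcol y hy)]
      exact (hpal y hy z hzA).symm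
    · simp only [if_neg hyA, if_neg hzA, dif_pos (hcol y hy), dif_pos (hcol z hz)]
      intro heq
      have h2 := e.injective (Subtype.ext heq)
      exact hκ2 y hy z hz hyz (congrArg Fin.val h2)
  · intro a ha
    simp only [if_pos ha]
  · intro p hp hpY hpA
    simp only [if_neg hpA, dif_pos (hcol _ hpY)]
    intro heq
    have h2 := hT (e ⟨κ p.1, hcol _ hpY⟩).2
    apply (Finset.mem_sdiff.1 h2).2
    rw [hU, Finset.mem_union]
    right
    rw [heq]
    exact Finset.mem_image_of_mem Prod.snd hp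

/-- removal of a precoloured vertex of small degree -/
lemma extP_remove {M : ℕ} {Y A : Finset V} {φ : V → ℕ} {P : Finset (V × ℕ)} (hAY : A ⊆ Y)
    (hφ : ∀ a ∈ A, φ a < M) (hφp : ∀ a ∈ A, ∀ b ∈ A, G.Adj a b → φ a ≠ φ b) {x : V} (hx : x ∈ A)
    (h : ExtP G M (Y.erase x) (A.erase x) φ
      (P ∪ ((Y \ A).filter (fun y => G.Adj x y)).image (fun y => (y, φ x)))) :
    ExtP G M Y A φ P := by
  obtain ⟨ψ, h1, h2, h3, h4⟩ := h
  have hkey : ∀ y ∈ Y, G.Adj x y → ψ y ≠ φ x := by
    intro y hy hxy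
    by_cases hyA : y ∈ A
    · rw [h3 y (Finset.mem_erase.2 ⟨hxy.ne', hyA⟩)]
      exact hφp y hyA x hx hxy.symm
    · have h5 : (y, φ x) ∈ P ∪ ((Y \ A).filter (fun y => G.Adj x y)).image (fun y => (y, φ x)) := by
        rw [Finset.mem_union]
        right
        refine Finset.mem_image.2 ⟨y, ?_, rfl⟩
        rw [Finset.mem_filter, Finset.mem_sdiff]
        exact ⟨⟨hy, hyA⟩, hxy⟩
      exact h4 _ h5 (Finset.mem_erase.2 ⟨hxy.ne', hy⟩) (fun h6 => hyA (Finset.mem_of_mem_erase h6))
  refine ⟨Function.update ψ x (φ x), ?_, ?_, ?_, ?_⟩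
  · intro y hy
    by_cases hyx : y = x
    · rw [hyx, Function.update_self]
      exact hφ x hx
    · rw [Function.update_of_ne hyx]
      exact h1 y (Finset.mem_erase.2 ⟨hyx, hy⟩)
  · intro y hy z hz hyz
    by_cases hyx : y = x
    · have hzx : z ≠ x := by
        rintro rfl
        exact hyz.ne hyx
      rw [hyx, Function.update_self, Function.update_of_ne hzx]
      rw [hyx] at hyz
      exact (hkey z hz hyz).symm
    · by_cases hzx : z = x
      · rw [hzx, Function.update_self, Function.update_of_ne hyx]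
        rw [hzx] at hyz
        exact hkey y hy hyz.symm
      · rw [Function.update_of_ne hyx, Function.update_of_ne hzx]
        exact h2 y (Finset.mem_erase.2 ⟨hyx, hy⟩) z (Finset.mem_erase.2 ⟨hzx, hz⟩) hyz
  · intro a ha
    by_cases hax : a = x
    · rw [hax, Function.update_self]
    · rw [Function.update_of_ne hax]
      exact h3 a (Finset.mem_erase.2 ⟨hax, ha⟩)
  · intro p hp hpY hpA
    have hpx : p.1 ≠ x := by
      rintro h6
      rw [h6] at hpA
      exact hpA hx
    rw [Function.update_of_ne hpx]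
    exact h4 p (Finset.mem_union_left _ hp) (Finset.mem_erase.2 ⟨hpx, hpY⟩)
      (fun h6 => hpA (Finset.mem_of_mem_erase h6))

/-- the case of a small separator -/
lemma extP_sep {M : ℕ} {Y A D X₁ X₂ : Finset V} {φ : V → ℕ} {P : Finset (V × ℕ)} (hAY : A ⊆ Y)
    (hY : Y = X₁ ∪ X₂ ∪ D) (h12 : Disjoint X₁ X₂) (h1D : Disjoint X₁ D) (h2D : Disjoint X₂ D)
    (hanti : ∀ x ∈ X₁, ∀ y ∈ X₂, ¬ G.Adj x y)
    (ha : ExtP G M (X₂ ∪ D ∪ (A ∩ X₁)) A φ P)
    (hb : ∀ φ' : V → ℕ, (∀ a ∈ (A ∩ X₁) ∪ D, φ' a < M) →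
      (∀ a ∈ (A ∩ X₁) ∪ D, ∀ b ∈ (A ∩ X₁) ∪ D, G.Adj a b → φ' a ≠ φ' b) →
      ExtP G M (X₁ ∪ D) ((A ∩ X₁) ∪ D) φ' (P.filter (fun p => p.1 ∈ X₁))) :
    ExtP G M Y A φ P := by
  obtain ⟨ψa, a1, a2, a3, a4⟩ := ha
  have hsub : (A ∩ X₁) ∪ D ⊆ X₂ ∪ D ∪ (A ∩ X₁) := by
    intro x hx
    simp only [Finset.mem_union, Finset.mem_inter] at hx ⊢
    tauto
  obtain ⟨ψb, b1, b2, b3, b4⟩ := hb ψa (fun a h => a1 a (hsub h))
    (fun a h b h' hab => a2 a (hsub h) b (hsub h') hab)
  have hX2' : ∀ x ∈ X₂, x ∈ X₂ ∪ D ∪ (A ∩ X₁) := fun x hx => by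
    simp only [Finset.mem_union]; tauto
  have hD' : ∀ x ∈ D, x ∈ X₂ ∪ D ∪ (A ∩ X₁) := fun x hx => by
    simp only [Finset.mem_union]; tauto
  have hDb : ∀ x ∈ D, x ∈ (A ∩ X₁) ∪ D := fun x hx => Finset.mem_union_right _ hx
  have hmem : ∀ x ∈ Y, x ∈ X₁ ∨ x ∈ X₂ ∨ x ∈ D := by
    intro x hx
    rw [hY] at hx
    simp only [Finset.mem_union] at hx
    tauto
  have hn2 : ∀ x ∈ X₁, x ∉ X₂ := fun x hx hx' => (Finset.disjoint_left.1 h12) hx hx'
  have hn2' : ∀ x ∈ D, x ∉ X₂ := fun x hx hx' => (Finset.disjoint_left.1 h2D) hx' hx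
  have hn1 : ∀ x ∈ D, x ∉ X₁ := fun x hx hx' => (Finset.disjoint_left.1 h1D) hx' hx
  refine ⟨fun v => if v ∈ X₂ then ψa v else ψb v, ?_, ?_, ?_, ?_⟩
  · intro y hy
    by_cases hy2 : y ∈ X₂
    · simp only [if_pos hy2]
      exact a1 y (hX2' y hy2)
    · simp only [if_neg hy2]
      refine b1 y ?_
      rcases hmem y hy with h | h | h
      · exact Finset.mem_union_left _ h
      · exact absurd h hy2
      · exact Finset.mem_union_right _ h
  · -- the values on `D` agree
    have hDv : ∀ x ∈ D, (if x ∈ X₂ then ψa x else ψb x) = ψa x := by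
      intro x hx
      rw [if_neg (hn2' x hx), b3 x (hDb x hx)]
    have hX1v : ∀ x ∈ X₁, (if x ∈ X₂ then ψa x else ψb x) = ψb x := fun x hx => if_neg (hn2 x hx)
    have hX2v : ∀ x ∈ X₂, (if x ∈ X₂ then ψa x else ψb x) = ψa x := fun x hx => if_pos hx
    have hDv' : ∀ x ∈ D, (if x ∈ X₂ then ψa x else ψb x) = ψb x := fun x hx => if_neg (hn2' x hx)
    intro y hy z hz hyz
    show (if y ∈ X₂ then ψa y else ψb y) ≠ (if z ∈ X₂ then ψa z else ψb z)
    rcases hmem y hy with h | h | h <;> rcases hmem z hz with h' | h' | h'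
    · rw [hX1v y h, hX1v z h']
      exact b2 y (Finset.mem_union_left _ h) z (Finset.mem_union_left _ h') hyz
    · exact absurd hyz (hanti y h z h')
    · rw [hX1v y h, hDv' z h']
      exact b2 y (Finset.mem_union_left _ h) z (Finset.mem_union_right _ h') hyz
    · exact absurd hyz.symm (hanti z h' y h)
    · rw [hX2v y h, hX2v z h']
      exact a2 y (hX2' y h) z (hX2' z h') hyz
    · rw [hX2v y h, hDv z h']
      exact a2 y (hX2' y h) z (hD' z h') hyz
    · rw [hDv' y h, hX1v z h']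
      exact b2 y (Finset.mem_union_right _ h) z (Finset.mem_union_left _ h') hyz
    · rw [hDv y h, hX2v z h']
      exact a2 y (hD' y h) z (hX2' z h') hyz
    · rw [hDv y h, hDv z h']
      exact a2 y (hD' y h) z (hD' z h') hyz
  · intro a haA
    show (if a ∈ X₂ then ψa a else ψb a) = φ a
    by_cases ha2 : a ∈ X₂
    · rw [if_pos ha2, a3 a haA]
    · rw [if_neg ha2]
      have h5 : a ∈ (A ∩ X₁) ∪ D := by
        rcases hmem a (hAY haA) with h | h | h
        · exact Finset.mem_union_left _ (Finset.mem_inter.2 ⟨haA, h⟩)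
        · exact absurd h ha2
        · exact Finset.mem_union_right _ h
      rw [b3 a h5, a3 a haA]
  · intro p hp hpY hpA
    show (if p.1 ∈ X₂ then ψa p.1 else ψb p.1) ≠ p.2
    by_cases hp2 : p.1 ∈ X₂
    · rw [if_pos hp2]
      exact a4 p hp (hX2' _ hp2) hpA
    · rw [if_neg hp2]
      rcases hmem p.1 hpY with h | h | h
      · refine b4 p (Finset.mem_filter.2 ⟨hp, h⟩) (Finset.mem_union_left _ h) ?_
        intro h5
        rcases Finset.mem_union.1 h5 with h6 | h6
        · exact hpA (Finset.mem_inter.1 h6).1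
        · exact hn1 _ h6 h
      · exact absurd h hp2
      · rw [b3 p.1 (hDb _ h)]
        exact a4 p hp (hD' _ h) hpA

/-- the precolouring theorem -/
theorem precol {c k : ℕ} (hk : 1 ≤ k) {X : Finset V}
    (hX : ∀ Y ⊆ X, c + 1 ≤ chi G Y → ∃ D ⊆ Y, D.card ≤ k ∧ ¬ Conn G (Y \ D)) :
    ∀ (n : ℕ) (Y : Finset V), Y ⊆ X → Y.card ≤ n → ∀ (A : Finset V) (φ : V → ℕ)
      (P : Finset (V × ℕ)), A ⊆ Y → (∀ a ∈ A, φ a < c + 6 * k ^ 2) →
      (∀ a ∈ A, ∀ b ∈ A, G.Adj a b → φ a ≠ φ b) → 3 * k * A.card + P.card ≤ 6 * k ^ 2 →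
      ExtP G (c + 6 * k ^ 2) Y A φ P := by
  intro n
  induction n with
  | zero =>
    intro Y _ hYn A φ P hAY hφ hφp _
    have hYe : Y = ∅ := Finset.card_eq_zero.1 (Nat.le_zero.1 hYn)
    subst hYe
    exact ⟨φ, by simp, by simp, fun _ _ => rfl, by simp⟩
  | succ n ih =>
    intro Y hYX hYn A φ P hAY hφ hφp hsum
    have hk3 : 1 ≤ 3 * k := by omega
    -- small chromatic number
    by_cases hchi : chi G Y ≤ c
    · refine extP_small G hAY hφ hφp ?_ hchi
      have h1 : A.card ≤ 3 * k * A.card := Nat.le_mul_of_pos_left _ (by omega)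
      omega
    push Not at hchi
    -- a precoloured vertex of small degree
    by_cases hdeg : ∃ x ∈ A, ((Y \ A).filter (fun y => G.Adj x y)).card ≤ 3 * k
    · obtain ⟨x, hx, hxd⟩ := hdeg
      refine extP_remove G hAY hφ hφp hx (ih (Y.erase x) ((Finset.erase_subset _ _).trans hYX) ?_
        (A.erase x) φ _ (Finset.erase_subset_erase _ hAY)
        (fun a ha => hφ a (Finset.mem_of_mem_erase ha))
        (fun a ha b hb => hφp a (Finset.mem_of_mem_erase ha) b (Finset.mem_of_mem_erase hb)) ?_)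
      · rw [Finset.card_erase_of_mem (hAY hx)]
        omega
      · have h1 : (P ∪ ((Y \ A).filter (fun y => G.Adj x y)).image (fun y => (y, φ x))).card ≤
            P.card + 3 * k := (Finset.card_union_le _ _).trans
          (Nat.add_le_add_left (Finset.card_image_le.trans hxd) _)
        have h2 : A.card = (A.erase x).card + 1 := (Finset.card_erase_add_one hx).symm
        rw [h2] at hsum
        have h3 : 3 * k * ((A.erase x).card + 1) = 3 * k * (A.erase x).card + 3 * k := by ring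
        omega
    push Not at hdeg
    obtain ⟨D, hDY, hDk, hD⟩ := hX Y hYX hchi
    obtain ⟨B₁, B₂, hB, hBd, hB1, hB2, hBa⟩ := exists_split G hD
    -- the side with the smaller weight
    obtain ⟨X₁, X₂, hXe, hXd, hX1, hX2, hXa, hw⟩ : ∃ X₁ X₂ : Finset V, Y \ D = X₁ ∪ X₂ ∧
        Disjoint X₁ X₂ ∧ X₁.Nonempty ∧ X₂.Nonempty ∧ (∀ x ∈ X₁, ∀ y ∈ X₂, ¬ G.Adj x y) ∧
        3 * k * (A ∩ X₁).card + (P.filter (fun p => p.1 ∈ X₁)).card ≤ 3 * k ^ 2 := by
      have h1 : (A ∩ B₁).card + (A ∩ B₂).card ≤ A.card := by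
        rw [← Finset.card_union_of_disjoint]
        · exact Finset.card_le_card (Finset.union_subset Finset.inter_subset_left
            Finset.inter_subset_left)
        · exact Finset.disjoint_of_subset_left Finset.inter_subset_right
            (Finset.disjoint_of_subset_right Finset.inter_subset_right hBd)
      have h2 : (P.filter (fun p => p.1 ∈ B₁)).card + (P.filter (fun p => p.1 ∈ B₂)).card ≤
          P.card := by
        rw [← Finset.card_union_of_disjoint]
        · exact Finset.card_le_card (Finset.union_subset (Finset.filter_subset _ _)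
            (Finset.filter_subset _ _))
        · rw [Finset.disjoint_left]
          intro p hp hp'
          exact (Finset.disjoint_left.1 hBd) (Finset.mem_filter.1 hp).2 (Finset.mem_filter.1 hp').2
      have h3 : 3 * k * ((A ∩ B₁).card + (A ∩ B₂).card) ≤ 3 * k * A.card :=
        Nat.mul_le_mul_left _ h1
      rw [Nat.mul_add] at h3
      rcases Nat.le_total (3 * k * (A ∩ B₁).card + (P.filter (fun p => p.1 ∈ B₁)).card)
        (3 * k * (A ∩ B₂).card + (P.filter (fun p => p.1 ∈ B₂)).card) with h | h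
      · exact ⟨B₁, B₂, hB, hBd, hB1, hB2, hBa, by omega⟩
      · refine ⟨B₂, B₁, by rw [Finset.union_comm]; exact hB, hBd.symm, hB2, hB1,
          fun x hx y hy hxy => hBa y hy x hx hxy.symm, by omega⟩
    have hX1Y : X₁ ⊆ Y \ D := by rw [hXe]; exact Finset.subset_union_left
    have hX2Y : X₂ ⊆ Y \ D := by rw [hXe]; exact Finset.subset_union_right
    have h1D : Disjoint X₁ D := by
      rw [Finset.disjoint_left]
      intro x hx
      exact (Finset.mem_sdiff.1 (hX1Y hx)).2
    have h2D : Disjoint X₂ D := by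
      rw [Finset.disjoint_left]
      intro x hx
      exact (Finset.mem_sdiff.1 (hX2Y hx)).2
    have hYe : Y = X₁ ∪ X₂ ∪ D := by
      rw [← hXe, Finset.sdiff_union_of_subset hDY]
    -- `X₁` is not contained in `A`
    have hnot : ∃ v ∈ X₁, v ∉ A := by
      by_contra hcon
      push Not at hcon
      obtain ⟨x, hx⟩ := hX1
      have h1 := hdeg x (hcon x hx)
      have h2 : (Y \ A).filter (fun y => G.Adj x y) ⊆ D := by
        intro y hy
        rw [Finset.mem_filter, Finset.mem_sdiff] at hy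
        obtain ⟨⟨hyY, hyA⟩, hxy⟩ := hy
        rw [hYe] at hyY
        simp only [Finset.mem_union] at hyY
        rcases hyY with (h | h) | h
        · exact absurd (hcon y h) hyA
        · exact absurd hxy (hXa x hx y h)
        · exact h
      have h3 := Finset.card_le_card h2
      omega
    refine extP_sep G hAY hYe hXd h1D h2D hXa ?_ ?_
    · refine ih _ ?_ ?_ A φ P ?_ hφ hφp hsum
      · refine Finset.Subset.trans ?_ hYX
        rw [hYe]
        intro x hx
        simp only [Finset.mem_union, Finset.mem_inter] at hx ⊢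
        tauto
      · have h4 : X₂ ∪ D ∪ (A ∩ X₁) ⊂ Y := by
          refine ⟨?_, ?_⟩
          · rw [hYe]
            intro x hx
            simp only [Finset.mem_union, Finset.mem_inter] at hx ⊢
            tauto
          · intro h
            obtain ⟨v, hv1, hvA⟩ := hnot
            have h5 := h ((Finset.mem_sdiff.1 (hX1Y hv1)).1)
            simp only [Finset.mem_union, Finset.mem_inter] at h5
            rcases h5 with (h6 | h6) | h6
            · exact (Finset.disjoint_left.1 hXd) hv1 h6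
            · exact (Finset.disjoint_left.1 h1D) hv1 h6
            · exact hvA h6.1
        have h5 := Finset.card_lt_card h4
        omega
      · intro x hx
        have h4 := hAY hx
        rw [hYe] at h4
        simp only [Finset.mem_union, Finset.mem_inter] at h4 ⊢
        tauto
    · intro φ' hφ' hφp'
      refine ih _ ?_ ?_ _ φ' _ ?_ hφ' hφp' ?_
      · refine Finset.Subset.trans ?_ hYX
        rw [hYe]
        intro x hx
        simp only [Finset.mem_union] at hx ⊢
        tauto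
      · have h4 : X₁ ∪ D ⊂ Y := by
          refine ⟨?_, ?_⟩
          · rw [hYe]
            intro x hx
            simp only [Finset.mem_union] at hx ⊢
            tauto
          · intro h
            obtain ⟨v, hv⟩ := hX2
            have h5 := h ((Finset.mem_sdiff.1 (hX2Y hv)).1)
            rcases Finset.mem_union.1 h5 with h6 | h6
            · exact (Finset.disjoint_left.1 hXd) h6 hv
            · exact (Finset.disjoint_left.1 h2D) hv h6
        have h5 := Finset.card_lt_card h4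
        omega
      · intro x hx
        simp only [Finset.mem_union, Finset.mem_inter] at hx ⊢
        tauto
      · have h4 : ((A ∩ X₁) ∪ D).card ≤ (A ∩ X₁).card + k :=
          (Finset.card_union_le _ _).trans (Nat.add_le_add_left hDk _)
        have h5 := Nat.mul_le_mul_left (3 * k) h4
        have h6 : 3 * k * ((A ∩ X₁).card + k) = 3 * k * (A ∩ X₁).card + 3 * k ^ 2 := by ring
        omega

/-- a highly connected subset of large chromatic number -/
theorem exists_conn {c k : ℕ} (hk : 1 ≤ k) {X : Finset V} (h : c + 1 + 6 * k ^ 2 ≤ chi G X) :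
    ∃ Y ⊆ X, c + 1 ≤ chi G Y ∧ ∀ D ⊆ Y, D.card ≤ k → Conn G (Y \ D) := by
  by_contra hcon
  push Not at hcon
  have h1 := precol G hk (c := c) (X := X) (fun Y hY hc => by
    obtain ⟨D, hD, hDk, hDc⟩ := hcon Y hY hc
    exact ⟨D, hD, hDk, hDc⟩) X.card X (Finset.Subset.refl _) le_rfl ∅ (fun _ => 0) ∅
    (Finset.empty_subset _) (by simp) (by simp) (by simp)
  obtain ⟨ψ, h2, h3, -, -⟩ := h1
  have h4 : chi G X ≤ c + 6 * k ^ 2 := (chi_le_iff G).2 ⟨ψ, h2, h3⟩
  omega

end Pool.Agent.Helper20.Dense
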