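import Mathlib
import Pool.Agent.Helper20.SJ.Pre

/-!
Graphs without long induced paths in which only few vertices are nearly complete to a set of large
chromatic number.
-/

open Finset
open scoped Classical

namespace Pool.Agent.Helper20.Dense

section

variable {V : Type*} [DecidableEq V] (G : SimpleGraph V)

lemma Tail.mono {i : ℕ} {b : V} {D D' : Finset V} (h : Tail G i b D) (hD : D' ⊆ D) :
    Tail G i b D' := by
  obtain ⟨v, hv, h1, h2⟩ := h
  exact ⟨v, hv, h1, fun j hj d hd => h2 j hj d (hD hd)⟩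

lemma Tail.lt {t i : ℕ} {b : V} {D : Finset V} (hfree : IsEmpty (SimpleGraph.pathGraph t ↪g G))
    (h : Tail G i b D) : i + 1 < t := by
  by_contra hcon
  push Not at hcon
  obtain ⟨φ⟩ := h.embedding
  have : Nonempty (SimpleGraph.pathGraph t ↪g SimpleGraph.pathGraph (i + 1)) := by
    refine ⟨⟨Fin.castLEEmb hcon, ?_⟩⟩
    intro a b
    simp [SimpleGraph.pathGraph_adj]
  obtain ⟨ψ⟩ := this
  exact hfree.false (φ.comp ψ)

end

variable {V : Type*} [Fintype V] [DecidableEq V] (G : SimpleGraph V)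

/-- extension of an induced path until it touches a given set -/
lemma tail_extend : ∀ (n : ℕ) (X : Finset V), X.card ≤ n → ∀ (i : ℕ) (u : V) (Z : Finset V)
    (z0 : V), Tail G i u X → Z ⊆ X → u ∉ Z → (∀ z ∈ Z, ¬ G.Adj u z) → z0 ∈ Z →
    Reach G X u z0 →
    ∃ j w, i + 1 ≤ j ∧ w ∈ X ∧ w ∉ Z ∧ Tail G j w Z ∧ ∃ z ∈ Z, G.Adj w z := by
  intro n
  induction n with
  | zero =>
    intro X hX i u Z z0 _ hZX _ _ hz0 _
    have hXe : X = ∅ := Finset.card_eq_zero.1 (Nat.le_zero.1 hX)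
    subst hXe
    exact absurd (hZX hz0) (Finset.notMem_empty _)
  | succ n ih =>
    intro X hX i u Z z0 htail hZX huZ hun hz0 hr
    rcases reach_step G hr with h1 | ⟨u', huu', hu'X, hr'⟩
    · exact absurd (h1 ▸ hz0) huZ
    · have hu'Z : u' ∉ Z := fun h => hun u' h huu'
      by_cases hnb : ∃ z ∈ Z, G.Adj u' z
      · refine ⟨i + 1, u', le_rfl, hu'X, hu'Z, ?_, hnb⟩
        refine htail.step G hu'X huu' hZX (fun d hd => ⟨?_, hun d hd⟩)
        rintro rfl
        exact huZ hd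
      · push Not at hnb
        have hsub : non G u X ⊆ X := non_subset G u X
        have hss : non G u X ⊂ X := by
          refine ⟨hsub, fun h => ?_⟩
          exact ((mem_non G).1 (h hu'X)).2.2 huu'
        have hcard := Finset.card_lt_card hss
        have hZ' : Z ⊆ non G u X := by
          intro z hz
          refine (mem_non G).2 ⟨hZX hz, ?_, hun z hz⟩
          rintro rfl
          exact huZ hz
        have htail' : Tail G (i + 1) u' (non G u X) := by
          refine htail.step G hu'X huu' hsub (fun d hd => ?_)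
          have := (mem_non G).1 hd
          exact ⟨this.2.1.symm, this.2.2⟩
        obtain ⟨j, w, hj, hwX, hwZ, hwt, hwn⟩ := ih (non G u X) (by omega) (i + 1) u' Z z0 htail' hZ'
          hu'Z hnb hz0 hr'
        exact ⟨j, w, by omega, hsub hwX, hwZ, hwt, hwn⟩

/-- the vertices which are nearly complete to `Z` -/
noncomputable def near (s : ℕ) (Z : Finset V) : Finset V :=
  Finset.univ.filter (fun v => s * chi G (Z.filter (fun z => ¬ G.Adj v z)) ≤ chi G Z)

lemma mem_near {s : ℕ} {Z : Finset V} {v : V} :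
    v ∈ near G s Z ↔ s * chi G (Z.filter (fun z => ¬ G.Adj v z)) ≤ chi G Z := by
  unfold near
  rw [Finset.mem_filter]
  exact ⟨fun h => h.2, fun h => ⟨Finset.mem_univ _, h⟩⟩

/-- good sets -/
def GoodSet (s m : ℕ) (Z : Finset V) : Prop :=
  (∀ z ∈ Z, z ∉ near G (2 * s) Z) ∧ (near G (2 * s) Z).card ≤ m ∧
    ∀ D ⊆ Z, D.card ≤ m → Conn G (Z \ D)

/-- existence of good sets -/
lemma exists_good {s m τ : ℕ} (H : ∀ Z : Finset V, τ < chi G Z → (near G s Z).card ≤ m)
    {Y R : Finset V} (hR : R.card ≤ 1) {c : ℕ} (hcτ : τ ≤ c) (hcs : 2 * s * (m + 1) ≤ c)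
    (hY : c + 1 + 6 * (2 * m + 1) ^ 2 ≤ chi G Y) :
    ∃ Z ⊆ Y, Disjoint Z R ∧ GoodSet G s m Z ∧ c ≤ chi G Z + m := by
  obtain ⟨X, hXY, hXc, hXD⟩ := exists_conn G (show 1 ≤ 2 * m + 1 by omega) hY
  have hN := H X (by omega)
  set Z := X \ (near G s X ∪ R) with hZ
  have hremc : (near G s X ∪ R).card ≤ m + 1 := (Finset.card_union_le _ _).trans (by omega)
  have hcov : X ⊆ Z ∪ (near G s X ∪ R) := by
    intro x hx
    rw [hZ, Finset.mem_union, Finset.mem_sdiff]
    tauto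
  have hchi : chi G X ≤ chi G Z + (m + 1) := by
    have h1 := chi_mono G hcov
    have h2 := chi_union G Z (near G s X ∪ R)
    have h3 := chi_le_card G (near G s X ∪ R)
    omega
  have hZX : Z ⊆ X := Finset.sdiff_subset
  have hnear : near G (2 * s) Z ⊆ near G s X := by
    intro v hv
    rw [mem_near] at hv ⊢
    have h1 : X.filter (fun z => ¬ G.Adj v z) ⊆
        Z.filter (fun z => ¬ G.Adj v z) ∪ (near G s X ∪ R) := by
      intro x hx
      rw [Finset.mem_filter] at hx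
      have h2 := hcov hx.1
      rw [Finset.mem_union] at h2 ⊢
      rcases h2 with h2 | h2
      · exact Or.inl (Finset.mem_filter.2 ⟨h2, hx.2⟩)
      · exact Or.inr h2
    have h2 := chi_mono G h1
    have h3 := chi_union G (Z.filter (fun z => ¬ G.Adj v z)) (near G s X ∪ R)
    have h4 := chi_le_card G (near G s X ∪ R)
    have h5 : chi G (X.filter (fun z => ¬ G.Adj v z)) ≤
      chi G (Z.filter (fun z => ¬ G.Adj v z)) + (m + 1) := by omega
    have h6 : s * chi G (X.filter (fun z => ¬ G.Adj v z)) ≤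
        s * chi G (Z.filter (fun z => ¬ G.Adj v z)) + s * (m + 1) := by
      rw [← Nat.mul_add]
      exact Nat.mul_le_mul_left _ h5
    have h7 := chi_mono G hZX
    have h8 : 2 * s * chi G (Z.filter (fun z => ¬ G.Adj v z)) =
      2 * (s * chi G (Z.filter (fun z => ¬ G.Adj v z))) := by ring
    have h9 : 2 * s * (m + 1) = 2 * (s * (m + 1)) := by ring
    omega
  refine ⟨Z, hZX.trans hXY, ?_, ⟨?_, ?_, ?_⟩, by omega⟩
  · rw [Finset.disjoint_left]
    intro z hz hzR
    exact (Finset.mem_sdiff.1 hz).2 (Finset.mem_union_right _ hzR)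
  · intro z hz hzn
    exact (Finset.mem_sdiff.1 hz).2 (Finset.mem_union_left _ (hnear hzn))
  · exact (Finset.card_le_card hnear).trans hN
  · intro D hD hDm
    have h1 : Z \ D = X \ (X ∩ (near G s X ∪ R) ∪ D) := by
      ext x
      rw [hZ]
      simp only [Finset.mem_sdiff, Finset.mem_union, Finset.mem_inter]
      tauto
    rw [h1]
    refine hXD _ ?_ ?_
    · exact Finset.union_subset Finset.inter_subset_left (hD.trans hZX)
    · have h2 : (X ∩ (near G s X ∪ R)).card ≤ m + 1 :=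
        (Finset.card_le_card Finset.inter_subset_right).trans hremc
      have h3 := Finset.card_union_le (X ∩ (near G s X ∪ R)) D
      omega

/-- the states of the path argument -/
def State (s m j : ℕ) (u : V) (Z : Finset V) : Prop :=
  Tail G j u Z ∧ u ∉ Z ∧ (∃ z ∈ Z, G.Adj u z) ∧ u ∉ near G (2 * s) Z ∧ GoodSet G s m Z

/-- the common part of the steps -/
lemma next_state {s m j : ℕ} {u : V} {Z Z' : Finset V} (hZ : GoodSet G s m Z)
    (hZ' : GoodSet G s m Z') (hsub : Z' ⊆ Z) (ht : Tail G j u Z) (hu : u ∉ Z')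
    (hun : ∀ z ∈ Z', ¬ G.Adj u z) (hpos : 0 < chi G Z')
    (hu1 : u ∈ Z \ near G (2 * s) Z' ∨ ∃ u1 ∈ Z, u1 ∉ near G (2 * s) Z' ∧ G.Adj u u1) :
    ∃ j' w, j + 1 ≤ j' ∧ State G s m j' w Z' := by
  obtain ⟨z0, hz0⟩ := nonempty_of_chi_pos G hpos
  set X := Z \ near G (2 * s) Z' with hX
  have hXe : X = Z \ (Z ∩ near G (2 * s) Z') := by
    ext x
    rw [hX]
    simp only [Finset.mem_sdiff, Finset.mem_inter]
    tauto
  have hconn : Conn G X := by
    rw [hXe]
    exact hZ.2.2 _ Finset.inter_subset_left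
      ((Finset.card_le_card Finset.inter_subset_right).trans hZ'.2.1)
  have hZ'X : Z' ⊆ X := by
    intro z hz
    exact Finset.mem_sdiff.2 ⟨hsub hz, hZ'.1 z hz⟩
  have hreach : Reach G X u z0 := by
    rcases hu1 with h | ⟨u1, h1, h2, h3⟩
    · exact hconn u h z0 (hZ'X hz0)
    · have h4 : u1 ∈ X := Finset.mem_sdiff.2 ⟨h1, h2⟩
      exact Relation.ReflTransGen.head ⟨h3, h4⟩ (hconn u1 h4 z0 (hZ'X hz0))
  obtain ⟨j', w, hj', hwX, hwZ', hwt, hwn⟩ := tail_extend G X.card X le_rfl j u Z' z0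
    (ht.mono G Finset.sdiff_subset) hZ'X hu hun hz0 hreach
  exact ⟨j', w, hj', hwt, hwZ', hwn, (Finset.mem_sdiff.1 hwX).2, hZ'⟩

/-- a vertex without neighbours in `Z` is not nearly complete to `Z` -/
lemma notMem_near_of_anti {s : ℕ} (hs : 1 ≤ s) {v : V} {Z : Finset V} (hpos : 0 < chi G Z)
    (h : ∀ z ∈ Z, ¬ G.Adj v z) : v ∉ near G (2 * s) Z := by
  rw [mem_near, Finset.filter_true_of_mem h]
  intro h1
  nlinarith

lemma core_step {s m τ : ℕ} (hs : 1 ≤ s)
    (H : ∀ Z : Finset V, τ < chi G Z → (near G s Z).card ≤ m) {j : ℕ} {u : V}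
    {Z : Finset V} (h : State G s m j u Z) {c : ℕ} (hcτ : τ ≤ c) (hcs : 2 * s * (m + 1) ≤ c)
    (hc1 : m + 1 ≤ c) (hchi : 2 * s * (c + 1 + 6 * (2 * m + 1) ^ 2 + m) ≤ chi G Z) :
    ∃ j' w Z', j + 1 ≤ j' ∧ State G s m j' w Z' ∧ c ≤ chi G Z' + m := by
  obtain ⟨ht, huZ, ⟨z1, hz1, huz1⟩, hun, hgood⟩ := h
  by_cases hN : m < (Z.filter (fun z => G.Adj u z)).card
  · -- many neighbours
    rw [mem_near] at hun
    push Not at hun
    have hY : c + 1 + 6 * (2 * m + 1) ^ 2 ≤ chi G (Z.filter (fun z => ¬ G.Adj u z)) := by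
      have h1 : 2 * s * (c + 1 + 6 * (2 * m + 1) ^ 2 + m) <
        2 * s * chi G (Z.filter (fun z => ¬ G.Adj u z)) := lt_of_le_of_lt hchi hun
      have h2 := Nat.lt_of_mul_lt_mul_left h1
      omega
    obtain ⟨Z', hZ'Y, -, hgood', hc'⟩ := exists_good G H (R := ∅) (by simp) hcτ hcs hY
    have hsub : Z' ⊆ Z := hZ'Y.trans (Finset.filter_subset _ _)
    obtain ⟨u1, hu1, hu1n⟩ : ∃ u1 ∈ Z.filter (fun z => G.Adj u z), u1 ∉ near G (2 * s) Z' := by
      by_contra hcon
      push Not at hcon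
      have h1 := Finset.card_le_card (show Z.filter (fun z => G.Adj u z) ⊆ near G (2 * s) Z' from
        hcon)
      have h2 := hgood'.2.1
      omega
    rw [Finset.mem_filter] at hu1
    obtain ⟨j', w, hj', hst⟩ := next_state G hgood hgood' hsub ht (fun h => huZ (hsub h))
      (fun z hz => (Finset.mem_filter.1 (hZ'Y hz)).2) (by omega)
      (Or.inr ⟨u1, hu1.1, hu1n, hu1.2⟩)
    exact ⟨j', w, Z', hj', hst, hc'⟩
  · push Not at hN
    have hz1n := hgood.1 z1 hz1
    rw [mem_near] at hz1n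
    push Not at hz1n
    set Y := (Z.filter (fun z => ¬ G.Adj z1 z)).filter (fun z => ¬ G.Adj u z) with hYdef
    have hY : c + 1 + 6 * (2 * m + 1) ^ 2 ≤ chi G Y := by
      have h1 : 2 * s * (c + 1 + 6 * (2 * m + 1) ^ 2 + m) <
        2 * s * chi G (Z.filter (fun z => ¬ G.Adj z1 z)) := lt_of_le_of_lt hchi hz1n
      have h2 := Nat.lt_of_mul_lt_mul_left h1
      have h3 : Z.filter (fun z => ¬ G.Adj z1 z) ⊆ Y ∪ Z.filter (fun z => G.Adj u z) := by
        intro x hx
        rw [Finset.mem_union, hYdef, Finset.mem_filter]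
        by_cases h4 : G.Adj u x
        · exact Or.inr (Finset.mem_filter.2 ⟨(Finset.mem_filter.1 hx).1, h4⟩)
        · exact Or.inl ⟨hx, h4⟩
      have h4 := chi_mono G h3
      have h5 := chi_union G Y (Z.filter (fun z => G.Adj u z))
      have h6 := chi_le_card G (Z.filter (fun z => G.Adj u z))
      omega
    obtain ⟨Z', hZ'Y, -, hgood', hc'⟩ := exists_good G H (R := ∅) (by simp) hcτ hcs hY
    have hsub : Z' ⊆ Z := hZ'Y.trans ((Finset.filter_subset _ _).trans (Finset.filter_subset _ _))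
    have hz1a : ∀ z ∈ Z', ¬ G.Adj z1 z := fun z hz =>
      (Finset.mem_filter.1 (Finset.mem_filter.1 (hZ'Y hz)).1).2
    obtain ⟨j', w, hj', hst⟩ := next_state G hgood hgood' hsub ht (fun h => huZ (hsub h))
      (fun z hz => (Finset.mem_filter.1 (hZ'Y hz)).2) (by omega)
      (Or.inr ⟨z1, hz1, notMem_near_of_anti G hs (by omega) hz1a, huz1⟩)
    exact ⟨j', w, Z', hj', hst, hc'⟩

lemma core_init {s m τ : ℕ} (hs : 1 ≤ s)
    (H : ∀ Z : Finset V, τ < chi G Z → (near G s Z).card ≤ m) 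
    {Z : Finset V} (hgood : GoodSet G s m Z) {c : ℕ} (hcτ : τ ≤ c) (hcs : 2 * s * (m + 1) ≤ c)
    (hc1 : m + 1 ≤ c) (hchi : 2 * s * (c + 1 + 6 * (2 * m + 1) ^ 2) ≤ chi G Z) :
    ∃ j' w Z', 1 ≤ j' ∧ State G s m j' w Z' ∧ c ≤ chi G Z' + m := by
  have hpos : 0 < chi G Z := by
    have : 1 * 1 ≤ 2 * s * (c + 1 + 6 * (2 * m + 1) ^ 2) := Nat.mul_le_mul (by omega) (by omega)
    omega
  obtain ⟨u, hu⟩ := nonempty_of_chi_pos G hpos
  have hun := hgood.1 u hu
  rw [mem_near] at hun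
  push Not at hun
  have hY : c + 1 + 6 * (2 * m + 1) ^ 2 ≤ chi G (Z.filter (fun z => ¬ G.Adj u z)) := by
    have h1 : 2 * s * (c + 1 + 6 * (2 * m + 1) ^ 2) <
      2 * s * chi G (Z.filter (fun z => ¬ G.Adj u z)) := lt_of_le_of_lt hchi hun
    exact (Nat.lt_of_mul_lt_mul_left h1).le
  obtain ⟨Z', hZ'Y, hdis, hgood', hc'⟩ := exists_good G H (R := {u}) (by simp) hcτ hcs hY
  have hsub : Z' ⊆ Z := hZ'Y.trans (Finset.filter_subset _ _)
  have huZ' : u ∉ Z' := fun h => (Finset.disjoint_left.1 hdis) h (Finset.mem_singleton_self u)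
  have hua : ∀ z ∈ Z', ¬ G.Adj u z := fun z hz => (Finset.mem_filter.1 (hZ'Y hz)).2
  obtain ⟨j', w, hj', hst⟩ := next_state G hgood hgood' hsub (Tail.zero G u Z) huZ' hua
    (by omega) (Or.inl (Finset.mem_sdiff.2 ⟨hu, notMem_near_of_anti G hs (by omega) hua⟩))
  exact ⟨j', w, Z', by omega, hst, hc'⟩

/-- numerical form of one step -/
lemma num_step {s m W K : ℕ} (hs : 1 ≤ s) (hW : 30 * (m + 1) ^ 2 ≤ W) (hK : W ≤ K) :
    2 * s * (K + m + 1 + 6 * (2 * m + 1) ^ 2 + m) ≤ 4 * s * K := by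
  have h1 : m + 1 + 6 * (2 * m + 1) ^ 2 + m ≤ 30 * (m + 1) ^ 2 := by nlinarith
  have h2 : K + m + 1 + 6 * (2 * m + 1) ^ 2 + m ≤ 2 * K := by omega
  calc 2 * s * (K + m + 1 + 6 * (2 * m + 1) ^ 2 + m) ≤ 2 * s * (2 * K) := Nat.mul_le_mul_left _ h2
    _ = 4 * s * K := by ring

/-- the path argument -/
lemma core_path {t : ℕ} (hfree : IsEmpty (SimpleGraph.pathGraph t ↪g G)) {s m τ W : ℕ} (hs : 1 ≤ s)
    (H : ∀ Z : Finset V, τ < chi G Z → (near G s Z).card ≤ m)
    (hW : τ + 2 * s * (m + 1) + 30 * (m + 1) ^ 2 ≤ W) :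
    ∀ (r j : ℕ) (u : V) (Z : Finset V), t ≤ j + r + 1 → State G s m j u Z →
      (4 * s) ^ r * W ≤ chi G Z → False := by
  intro r
  induction r with
  | zero =>
    intro j u Z hj hst _
    have := hst.1.lt G hfree
    omega
  | succ r ih =>
    intro j u Z hj hst hchi
    have h1 : 1 ≤ (4 * s) ^ r := Nat.one_le_pow _ _ (by omega)
    have hK : W ≤ (4 * s) ^ r * W := Nat.le_mul_of_pos_left _ h1
    set K := (4 * s) ^ r * W with hKdef
    have h30 : m + 1 ≤ 30 * (m + 1) ^ 2 := by nlinarith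
    obtain ⟨j', w, Z', hj', hst', hc'⟩ := core_step G hs H hst (c := K + m)
      (by omega) (by omega) (by omega) (by
        have h2 := num_step (s := s) (m := m) (W := W) (K := K) hs (by omega) hK
        have h3 : (4 * s) ^ (r + 1) * W = 4 * s * K := by
          rw [hKdef, pow_succ]
          ring
        have h4 : 2 * s * (K + m + 1 + 6 * (2 * m + 1) ^ 2 + m) =
          2 * s * (K + m + 1 + 6 * (2 * m + 1) ^ 2 + m) := rfl
        omega)
    exact ih j' w Z' (by omega) hst' (by omega)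

/-- The core theorem. -/
theorem core {t : ℕ} (hfree : IsEmpty (SimpleGraph.pathGraph t ↪g G)) {s m τ : ℕ} (hs : 1 ≤ s)
    (H : ∀ Z : Finset V, τ < chi G Z → (near G s Z).card ≤ m) :
    chi G Finset.univ ≤ (4 * s) ^ (t + 1) * (τ + 2 * s * (m + 1) + 30 * (m + 1) ^ 2) := by
  by_contra hcon
  push Not at hcon
  set W := τ + 2 * s * (m + 1) + 30 * (m + 1) ^ 2 with hW
  have h1 : ∀ r, 1 ≤ (4 * s) ^ r := fun r => Nat.one_le_pow _ _ (by omega)
  have hK0 : W ≤ (4 * s) ^ t * W := Nat.le_mul_of_pos_left _ (h1 t)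
  have hK : W ≤ (4 * s) ^ (t - 1) * W := Nat.le_mul_of_pos_left _ (h1 (t - 1))
  have h30 : m + 1 ≤ 30 * (m + 1) ^ 2 := by nlinarith
  have ht0 : 1 ≤ t := by
    rcases Nat.eq_zero_or_pos t with h | h
    · subst h
      exact (hfree.false ⟨⟨fun x => x.elim0, fun x => x.elim0⟩, fun {x} => x.elim0⟩).elim
    · exact h
  -- the first good set
  obtain ⟨Z, -, -, hgood, hc⟩ := exists_good G H (R := ∅) (by simp) (c := (4 * s) ^ t * W + m)
    (Y := Finset.univ) (by omega) (by omega) (by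
      have h2 := num_step (s := s) (m := m) (W := W) (K := (4 * s) ^ t * W) hs (by omega) hK0
      have h3 : (4 * s) ^ (t + 1) * W = 4 * s * ((4 * s) ^ t * W) := by
        rw [pow_succ]
        ring
      have h4 : (4 * s) ^ t * W + m + 1 + 6 * (2 * m + 1) ^ 2 + m ≤
          2 * s * ((4 * s) ^ t * W + m + 1 + 6 * (2 * m + 1) ^ 2 + m) :=
        Nat.le_mul_of_pos_left _ (by omega)
      omega)
  obtain ⟨j, w, Z', hj, hst, hc'⟩ := core_init G hs H hgood (c := (4 * s) ^ (t - 1) * W + m)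
    (by omega) (by omega) (by omega) (by
      have h2 := num_step (s := s) (m := m) (W := W) (K := (4 * s) ^ (t - 1) * W) hs (by omega) hK
      have h3 : (4 * s) ^ t * W = 4 * s * ((4 * s) ^ (t - 1) * W) := by
        obtain ⟨t', rfl⟩ : ∃ t', t = t' + 1 := ⟨t - 1, by omega⟩
        rw [Nat.add_sub_cancel, pow_succ]
        ring
      have h4 : 2 * s * ((4 * s) ^ (t - 1) * W + m + 1 + 6 * (2 * m + 1) ^ 2) ≤
          2 * s * ((4 * s) ^ (t - 1) * W + m + 1 + 6 * (2 * m + 1) ^ 2 + m) :=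
        Nat.mul_le_mul_left _ (by omega)
      omega)
  exact core_path G hfree hs H (W := W) le_rfl (t - 1) j w Z' (by omega) hst (by omega)

end Pool.Agent.Helper20.Dense
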