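import Mathlib
import Pool.Agent.Helper20.SJ.Core

/-!
Closure under joins with stable sets; sets without large complete multipartite subgraphs.
-/

open Finset
open scoped Classical

namespace Pool.Agent.Helper20.Dense

section Ramsey

variable {V : Type*} [Fintype V] [DecidableEq V] (G : SimpleGraph V)

/-- the Ramsey bound -/
lemma ramsey : ∀ (s : ℕ) (X : Finset V),
    (∀ S ⊆ X, (∀ a ∈ S, ∀ b ∈ S, ¬ G.Adj a b) → S.card ≤ s) → X.card + 1 ≤ (om G X + 1) ^ s := by
  intro s
  induction s with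
  | zero =>
    intro X hX
    have hXe : X = ∅ := by
      by_contra hne
      obtain ⟨x, hx⟩ := Finset.nonempty_iff_ne_empty.2 hne
      have h1 := hX {x} (by simpa using hx) (by
        intro a ha b hb hab
        rw [Finset.mem_singleton] at ha hb
        rw [ha, hb] at hab
        exact hab.ne rfl)
      simp at h1
    rw [hXe]
    simp
  | succ s ih =>
    intro X hX
    obtain ⟨K, hKX, hKc, hK⟩ := exists_clique G X
    have hcov : X ⊆ K.biUnion (fun v => insert v (non G v X)) := by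
      intro x hx
      by_contra hcon
      rw [Finset.mem_biUnion] at hcon
      push Not at hcon
      have hadj : ∀ v ∈ K, x ≠ v ∧ G.Adj v x := by
        intro v hv
        have h1 := hcon v hv
        rw [Finset.mem_insert, mem_non] at h1
        push Not at h1
        exact ⟨h1.1, h1.2 hx h1.1⟩
      have hxK : x ∉ K := fun h => (hadj x h).1 rfl
      have h2 : G.IsClique ((insert x K : Finset V) : Set V) := by
        rw [Finset.coe_insert, SimpleGraph.isClique_insert]
        exact ⟨hKc, fun v hv _ => (hadj v hv).2.symm⟩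
      have h3 := card_le_om G (X := X) (S := insert x K) (by
        intro y hy
        rcases Finset.mem_insert.1 hy with h | h
        · rw [h]
          exact hx
        · exact hKX h) h2
      rw [Finset.card_insert_of_notMem hxK] at h3
      omega
    have h1 : ∀ v ∈ K, (insert v (non G v X)).card ≤ (om G X + 1) ^ s := by
      intro v hv
      have h2 := ih (non G v X) (by
        intro S hS hSs
        have hvS : v ∉ S := fun h => ((mem_non G).1 (hS h)).2.1 rfl
        have h3 := hX (insert v S) (by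
          intro y hy
          rcases Finset.mem_insert.1 hy with h | h
          · rw [h]
            exact hKX hv
          · exact non_subset G v X (hS h)) (by
          intro a ha b hb hab
          rcases Finset.mem_insert.1 ha with h | h <;> rcases Finset.mem_insert.1 hb with h' | h'
          · rw [h, h'] at hab
            exact hab.ne rfl
          · rw [h] at hab
            exact ((mem_non G).1 (hS h')).2.2 hab
          · rw [h'] at hab
            exact ((mem_non G).1 (hS h)).2.2 hab.symm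
          · exact hSs a h b h' hab)
        rw [Finset.card_insert_of_notMem hvS] at h3
        omega)
      have h3 := Finset.card_insert_le v (non G v X)
      have h4 : (om G (non G v X) + 1) ^ s ≤ (om G X + 1) ^ s :=
        Nat.pow_le_pow_left (Nat.add_le_add_right (om_mono G (non_subset G v X)) 1) s
      omega
    have h2 : X.card ≤ om G X * (om G X + 1) ^ s := by
      calc X.card ≤ (K.biUnion (fun v => insert v (non G v X))).card := Finset.card_le_card hcov
        _ ≤ K.card * (om G X + 1) ^ s := Finset.card_biUnion_le_card_mul _ _ _ h1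
        _ = _ := by rw [hK]
    have h3 : 1 ≤ (om G X + 1) ^ s := Nat.one_le_pow _ _ (by omega)
    calc X.card + 1 ≤ om G X * (om G X + 1) ^ s + (om G X + 1) ^ s := by omega
      _ = (om G X + 1) ^ (s + 1) := by ring

/-- the common neighbourhood of few nearly complete vertices -/
lemma common_nbhd {s : ℕ} {Z S : Finset V} (hS : S ⊆ near G (2 * s) Z) (hSc : S.card = s) :
    chi G Z ≤ 2 * chi G (Z.filter (fun z => ∀ v ∈ S, G.Adj v z)) := by
  have hcov : Z ⊆ Z.filter (fun z => ∀ v ∈ S, G.Adj v z) ∪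
      S.biUnion (fun v => Z.filter (fun z => ¬ G.Adj v z)) := by
    intro z hz
    rw [Finset.mem_union]
    by_cases h : ∀ v ∈ S, G.Adj v z
    · exact Or.inl (Finset.mem_filter.2 ⟨hz, h⟩)
    · push Not at h
      obtain ⟨v, hv, hvz⟩ := h
      exact Or.inr (Finset.mem_biUnion.2 ⟨v, hv, Finset.mem_filter.2 ⟨hz, hvz⟩⟩)
  have h1 := chi_mono G hcov
  have h2 := chi_union G (Z.filter (fun z => ∀ v ∈ S, G.Adj v z))
    (S.biUnion (fun v => Z.filter (fun z => ¬ G.Adj v z)))
  have h3 := chi_biUnion_le G S (fun v => Z.filter (fun z => ¬ G.Adj v z))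
  have h4 : 2 * s * ∑ v ∈ S, chi G (Z.filter (fun z => ¬ G.Adj v z)) ≤ s * chi G Z := by
    rw [Finset.mul_sum]
    calc ∑ v ∈ S, 2 * s * chi G (Z.filter (fun z => ¬ G.Adj v z)) ≤ ∑ v ∈ S, chi G Z :=
          Finset.sum_le_sum fun v hv => (mem_near G).1 (hS hv)
      _ = s * chi G Z := by rw [Finset.sum_const, hSc, smul_eq_mul]
  rcases Nat.eq_zero_or_pos s with h5 | h5
  · rw [h5, Finset.card_eq_zero] at hSc
    subst hSc
    simp only [Finset.sum_empty] at h3
    omega
  · have h6 : 2 * ∑ v ∈ S, chi G (Z.filter (fun z => ¬ G.Adj v z)) ≤ chi G Z := by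
      refine Nat.le_of_mul_le_mul_left ?_ h5
      calc s * (2 * ∑ v ∈ S, chi G (Z.filter (fun z => ¬ G.Adj v z))) =
          2 * s * ∑ v ∈ S, chi G (Z.filter (fun z => ¬ G.Adj v z)) := by ring
        _ ≤ s * chi G Z := h4
    omega

end Ramsey

/-- closure under joins with stable sets -/
theorem poly_join {t : ℕ} {W : Type} [Fintype W] (F : SimpleGraph W) (A : Finset W)
    (hA : ∀ a ∈ A, ∀ b ∈ A, ¬ F.Adj a b) (hAc : ∀ a ∈ A, ∀ b ∉ A, F.Adj a b)
    (h : Poly t (F.induce ((Aᶜ : Finset W) : Set W))) : Poly t F := by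
  classical
  by_cases hs0 : A.card = 0
  · rw [Finset.card_eq_zero] at hs0
    subst hs0
    refine poly_mono ?_ h
    refine ⟨⟨fun w => ⟨w, by simp⟩, fun a b hab => congrArg Subtype.val hab⟩, ?_⟩
    intro a b
    rfl
  obtain ⟨C, g, h⟩ := h
  set s := A.card with hsdef
  have hs : 1 ≤ s := by omega
  refine ⟨(4 * (2 * s)) ^ (t + 1) * (2 * C + 4 * s * (2 ^ s + 1) + 30 * (2 ^ s + 1) ^ 2),
    g + 2 * s, ?_⟩
  intro V _ G hfree hF
  rw [← isCol_univ_iff, ← chi_le_iff]
  by_cases hVe : (Finset.univ : Finset V) = ∅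
  · rw [hVe, chi_empty]
    exact Nat.zero_le _
  have hω : 1 ≤ om G Finset.univ := om_pos G (Finset.nonempty_iff_ne_empty.mpr hVe)
  set ω := om G Finset.univ with hωdef
  set m := (ω + 1) ^ (s - 1) with hm
  have hcore := core G hfree (s := 2 * s) (m := m) (τ := 2 * (C * ω ^ g)) (by omega) (by
    intro Z hZ
    by_contra hcon
    push Not at hcon
    -- a stable set in the set of nearly complete vertices
    obtain ⟨S, hS, hSs, hSc⟩ : ∃ S ⊆ near G (2 * s) Z, (∀ a ∈ S, ∀ b ∈ S, ¬ G.Adj a b) ∧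
        S.card = s := by
      by_contra hno
      push Not at hno
      have h1 := ramsey G (s - 1) (near G (2 * s) Z) (by
        intro S hS hSs
        by_contra hcon'
        push Not at hcon'
        obtain ⟨S', hS', hS'c⟩ := Finset.exists_subset_card_eq (show s ≤ S.card by omega)
        exact hno S' (hS'.trans hS) (fun a ha b hb => hSs a (hS' ha) b (hS' hb)) hS'c)
      have h2 : (om G (near G (2 * s) Z) + 1) ^ (s - 1) ≤ m := by
        rw [hm]
        exact Nat.pow_le_pow_left (Nat.add_le_add_right (om_mono G (Finset.subset_univ _)) 1) _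
      omega
    have h1 := common_nbhd G hS hSc
    set Q := Z.filter (fun z => ∀ v ∈ S, G.Adj v z) with hQ
    have h2 : ∃ φ : F.induce ((Aᶜ : Finset W) : Set W) ↪g G, ∀ w, φ w ∈ Q := by
      by_contra hno
      have h3 := poly_apply G h hfree Q hno
      have h4 : C * (om G Q) ^ g ≤ C * ω ^ g :=
        Nat.mul_le_mul_left _ (Nat.pow_le_pow_left (om_mono G (Finset.subset_univ _)) g)
      omega
    obtain ⟨φ, hφ⟩ := h2
    have hadj : ∀ a ∈ S, ∀ w, G.Adj a (φ w) := fun a ha w => (Finset.mem_filter.1 (hφ w)).2 a ha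
    obtain ⟨e⟩ : Nonempty (A ≃ S) := ⟨Finset.equivOfCardEq (by rw [hSc])⟩
    -- the embedding of `F`
    refine hF.false ⟨⟨fun w => if hw : w ∈ A then (e ⟨w, hw⟩ : V) else φ ⟨w, by simpa using hw⟩, ?_⟩,
      ?_⟩
    · intro a b hab
      simp only at hab
      by_cases ha : a ∈ A <;> by_cases hb : b ∈ A
      · rw [dif_pos ha, dif_pos hb] at hab
        exact congrArg Subtype.val (e.injective (Subtype.ext hab))
      · rw [dif_pos ha, dif_neg hb] at hab
        exact absurd hab (hadj _ (e ⟨a, ha⟩).2 _).ne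
      · rw [dif_neg ha, dif_pos hb] at hab
        exact absurd hab.symm (hadj _ (e ⟨b, hb⟩).2 _).ne
      · rw [dif_neg ha, dif_neg hb] at hab
        exact congrArg Subtype.val (φ.injective hab)
    · intro a b
      simp only [Function.Embedding.coeFn_mk]
      by_cases ha : a ∈ A <;> by_cases hb : b ∈ A
      · rw [dif_pos ha, dif_pos hb]
        exact ⟨fun h' => absurd h' (hSs _ (e ⟨a, ha⟩).2 _ (e ⟨b, hb⟩).2),
          fun h' => absurd h' (hA a ha b hb)⟩
      · rw [dif_pos ha, dif_neg hb]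
        exact ⟨fun _ => hAc a ha b hb, fun _ => hadj _ (e ⟨a, ha⟩).2 _⟩
      · rw [dif_neg ha, dif_pos hb]
        exact ⟨fun _ => (hAc b hb a ha).symm, fun _ => (hadj _ (e ⟨b, hb⟩).2 _).symm⟩
      · rw [dif_neg ha, dif_neg hb]
        rw [φ.map_adj_iff]
        rfl)
  have hωle : ω ≤ G.cliqueNum := om_univ_le G
  set x := G.cliqueNum with hx
  have hx1 : 1 ≤ x := hω.trans hωle
  have hm1 : m ≤ 2 ^ s * x ^ s := by
    calc m = (ω + 1) ^ (s - 1) := rfl
      _ ≤ (2 * x) ^ (s - 1) := Nat.pow_le_pow_left (by omega) _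
      _ ≤ (2 * x) ^ s := Nat.pow_le_pow_right (by omega) (by omega)
      _ = _ := mul_pow _ _ _
  have hxs : 1 ≤ x ^ s := Nat.one_le_pow _ _ hx1
  have hxg : 1 ≤ x ^ g := Nat.one_le_pow _ _ hx1
  have hm2 : m + 1 ≤ (2 ^ s + 1) * x ^ s := by
    rw [Nat.add_mul]
    omega
  have hωg : ω ^ g ≤ x ^ g := Nat.pow_le_pow_left hωle g
  have hpow : x ^ (g + 2 * s) = x ^ g * (x ^ s) ^ 2 := by
    rw [pow_add, mul_comm 2 s, pow_mul]
  have e1 : 2 * (C * ω ^ g) ≤ 2 * C * x ^ (g + 2 * s) := by
    rw [hpow]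
    calc 2 * (C * ω ^ g) ≤ 2 * (C * x ^ g) := by
          exact Nat.mul_le_mul_left _ (Nat.mul_le_mul_left _ hωg)
      _ = 2 * C * (x ^ g * 1) := by ring
      _ ≤ 2 * C * (x ^ g * (x ^ s) ^ 2) := by
          refine Nat.mul_le_mul_left _ (Nat.mul_le_mul_left _ ?_)
          exact Nat.one_le_pow _ _ hxs
  have e2 : 2 * (2 * s) * (m + 1) ≤ 4 * s * (2 ^ s + 1) * x ^ (g + 2 * s) := by
    rw [hpow]
    calc 2 * (2 * s) * (m + 1) ≤ 2 * (2 * s) * ((2 ^ s + 1) * x ^ s) := Nat.mul_le_mul_left _ hm2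
      _ = 4 * s * (2 ^ s + 1) * (1 * (x ^ s * 1)) := by ring
      _ ≤ 4 * s * (2 ^ s + 1) * (x ^ g * (x ^ s * x ^ s)) := by
          refine Nat.mul_le_mul_left _ (Nat.mul_le_mul hxg (Nat.mul_le_mul_left _ hxs))
      _ = _ := by ring
  have e3 : 30 * (m + 1) ^ 2 ≤ 30 * (2 ^ s + 1) ^ 2 * x ^ (g + 2 * s) := by
    rw [hpow]
    calc 30 * (m + 1) ^ 2 ≤ 30 * ((2 ^ s + 1) * x ^ s) ^ 2 :=
          Nat.mul_le_mul_left _ (Nat.pow_le_pow_left hm2 2)
      _ = 30 * (2 ^ s + 1) ^ 2 * (1 * (x ^ s) ^ 2) := by ring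
      _ ≤ 30 * (2 ^ s + 1) ^ 2 * (x ^ g * (x ^ s) ^ 2) :=
          Nat.mul_le_mul_left _ (Nat.mul_le_mul_right _ hxg)
  calc chi G Finset.univ ≤ (4 * (2 * s)) ^ (t + 1) *
        (2 * (C * ω ^ g) + 2 * (2 * s) * (m + 1) + 30 * (m + 1) ^ 2) := hcore
    _ ≤ (4 * (2 * s)) ^ (t + 1) * (2 * C * x ^ (g + 2 * s) +
        4 * s * (2 ^ s + 1) * x ^ (g + 2 * s) + 30 * (2 ^ s + 1) ^ 2 * x ^ (g + 2 * s)) :=
        Nat.mul_le_mul_left _ (Nat.add_le_add (Nat.add_le_add e1 e2) e3)
    _ = _ := by ring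

end Pool.Agent.Helper20.Dense
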