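import Mathlib
import Pool.Agent.Helper20.SJ.Join
import Pool.Agent.Helper20.Dense.TrivPerf

/-!
Graphs without an induced path on four vertices: Seinsche's theorem; graphs which in addition
contain no induced complement of two disjoint paths on three vertices.
-/

open Finset
open scoped Classical

namespace Pool.Agent.Helper20.Dense

section

variable {W : Type} [Fintype W] [DecidableEq W] (F : SimpleGraph W)

/-- no induced path on four vertices -/
def NoP4 : Prop :=
  ∀ a b c d, F.Adj a b → F.Adj b c → F.Adj c d → ¬ F.Adj a c → ¬ F.Adj b d → ¬ F.Adj a d → False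

/-- a bipartition without edges -/
def Split (X : Finset W) : Prop :=
  ∃ A B : Finset W, X = A ∪ B ∧ Disjoint A B ∧ A.Nonempty ∧ B.Nonempty ∧
    ∀ x ∈ A, ∀ y ∈ B, ¬ F.Adj x y

omit [Fintype W] [DecidableEq W] in
lemma noP4_of_free (h : IsEmpty (SimpleGraph.pathGraph 4 ↪g F)) : NoP4 F := by
  intro a b c d hab hbc hcd hac hbd had
  have h1 : a ≠ c := by
    rintro rfl
    exact had hcd
  have h2 : b ≠ d := by
    rintro rfl
    exact had hab
  have h3 : a ≠ d := by
    rintro rfl
    exact hac hcd.symm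
  obtain ⟨φ⟩ := p4_embedding F hab hbc hcd hac had hbd h1 h3 h2
  exact h.false φ

omit [Fintype W] [DecidableEq W] in
lemma noP4_compl (h : NoP4 F) : NoP4 Fᶜ := by
  intro a b c d hab hbc hcd hac hbd had
  rw [SimpleGraph.compl_adj] at hab hbc hcd hac hbd had
  have h1 : a ≠ c := by
    rintro rfl
    exact had hcd
  have h2 : b ≠ d := by
    rintro rfl
    exact had hab
  have h3 : a ≠ d := by
    rintro rfl
    exact hac ⟨hcd.1.symm, fun h' => hcd.2 h'.symm⟩
  have hac' : F.Adj a c := by
    by_contra h'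
    exact hac ⟨h1, h'⟩
  have hbd' : F.Adj b d := by
    by_contra h'
    exact hbd ⟨h2, h'⟩
  have had' : F.Adj a d := by
    by_contra h'
    exact had ⟨h3, h'⟩
  exact h b d a c hbd' had'.symm hac' (fun h' => hab.2 h'.symm) (fun h' => hcd.2 h'.symm) hbc.2

omit [Fintype W] in
lemma reach_side {A B : Finset W} (h : ∀ x ∈ A, ∀ y ∈ B, ¬ F.Adj x y) {z y : W} (hz : z ∈ A)
    (hr : Reach F (A ∪ B) z y) : y ∈ A := by
  induction hr with
  | refl => exact hz
  | tail _ hcb ih =>
    rcases Finset.mem_union.1 hcb.2 with h1 | h1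
    · exact h1
    · exact absurd hcb.1 (h _ ih _ h1)

omit [Fintype W] in
lemma reach_edge {X : Finset W} {x z0 : W} (hx : ¬ F.Adj x z0) {y : W} (hr : Reach F X z0 y)
    (hy : F.Adj x y) : ∃ z y', Reach F X z0 z ∧ (z = z0 ∨ z ∈ X) ∧ Reach F X z0 y' ∧ y' ∈ X ∧
      F.Adj z y' ∧ ¬ F.Adj x z ∧ F.Adj x y' := by
  induction hr with
  | refl => exact absurd hy hx
  | @tail c b hc hcb ih =>
    by_cases h : F.Adj x c
    · exact ih h
    · refine ⟨c, b, hc, ?_, hc.tail hcb, hcb.2, hcb.1, h, hy⟩
      rcases Relation.ReflTransGen.cases_tail hc with h1 | ⟨d, _, h1⟩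
      · exact Or.inl h1
      · exact Or.inr h1.2

omit [Fintype W] in
/-- adding a vertex to a disconnected set -/
lemma split_insert (hP : NoP4 F) {X : Finset W} {x : W} (hx : x ∉ X) (h : Split F X) :
    Split F (insert x X) ∨ Split Fᶜ (insert x X) := by
  obtain ⟨A, B, hAB, hd, hA, hB, hanti⟩ := h
  have hXne : X.Nonempty := by
    rw [hAB]
    exact hA.mono Finset.subset_union_left
  by_cases hall : ∀ z ∈ X, F.Adj x z
  · right
    refine ⟨{x}, X, ?_, ?_, Finset.singleton_nonempty x, hXne, ?_⟩
    · rw [Finset.insert_eq]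
    · rw [Finset.disjoint_singleton_left]
      exact hx
    · intro a ha b hb hab
      rw [Finset.mem_singleton] at ha
      rw [ha] at hab
      exact ((SimpleGraph.compl_adj _ _ _).1 hab).2 (hall b hb)
  push Not at hall
  obtain ⟨z0, hz0, hxz0⟩ := hall
  left
  set C := X.filter (fun y => Reach F X z0 y) with hC
  set C' := X.filter (fun y => ¬ Reach F X z0 y) with hC'
  have hCC : X = C ∪ C' := by
    rw [hC, hC', Finset.filter_union_filter_not_eq]
  have hz0C : z0 ∈ C := Finset.mem_filter.2 ⟨hz0, Relation.ReflTransGen.refl⟩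
  have hC'ne : C'.Nonempty := by
    rw [hAB, Finset.mem_union] at hz0
    rcases hz0 with h1 | h1
    · obtain ⟨b, hb⟩ := hB
      refine ⟨b, Finset.mem_filter.2 ⟨by rw [hAB]; exact Finset.mem_union_right _ hb, ?_⟩⟩
      intro hr
      rw [hAB] at hr
      exact (Finset.disjoint_left.1 hd) (reach_side F hanti h1 hr) hb
    · obtain ⟨a, ha⟩ := hA
      refine ⟨a, Finset.mem_filter.2 ⟨by rw [hAB]; exact Finset.mem_union_left _ ha, ?_⟩⟩
      intro hr
      rw [hAB, Finset.union_comm] at hr
      exact (Finset.disjoint_left.1 hd) ha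
        (reach_side F (fun x hx y hy hxy => hanti y hy x hx hxy.symm) h1 hr)
  have hCanti : ∀ a ∈ C, ∀ b ∈ C', ¬ F.Adj a b := by
    intro a ha b hb hab
    rw [hC, Finset.mem_filter] at ha
    rw [hC', Finset.mem_filter] at hb
    exact hb.2 (ha.2.tail ⟨hab, hb.1⟩)
  have hdC : Disjoint C C' := Finset.disjoint_filter_filter_not _ _ _
  have hxC : x ∉ C := fun h => hx (Finset.mem_filter.1 h).1
  have hxC' : x ∉ C' := fun h => hx (Finset.mem_filter.1 h).1
  by_cases h1 : ∀ y ∈ C, ¬ F.Adj x y
  · refine ⟨C, insert x C', ?_, ?_, ⟨z0, hz0C⟩, Finset.insert_nonempty _ _, ?_⟩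
    · rw [Finset.union_insert, ← hCC]
    · rw [Finset.disjoint_insert_right]
      exact ⟨hxC, hdC⟩
    · intro a ha b hb hab
      rcases Finset.mem_insert.1 hb with h2 | h2
      · rw [h2] at hab
        exact h1 a ha hab.symm
      · exact hCanti a ha b h2 hab
  by_cases h2 : ∀ y ∈ C', ¬ F.Adj x y
  · refine ⟨insert x C, C', ?_, ?_, Finset.insert_nonempty _ _, hC'ne, ?_⟩
    · rw [Finset.insert_union, ← hCC]
    · rw [Finset.disjoint_insert_left]
      exact ⟨hxC', hdC⟩
    · intro a ha b hb hab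
      rcases Finset.mem_insert.1 ha with h3 | h3
      · rw [h3] at hab
        exact h2 b hb hab
      · exact hCanti a h3 b hb hab
  push Not at h1 h2
  obtain ⟨y0, hy0, hxy0⟩ := h1
  obtain ⟨w, hw, hxw⟩ := h2
  exfalso
  obtain ⟨z, y', hz, hzX, hy', hy'X, hzy, hxz, hxy'⟩ := reach_edge F hxz0 (Finset.mem_filter.1 hy0).2
    hxy0
  have hzC : z ∈ C := by
    refine Finset.mem_filter.2 ⟨?_, hz⟩
    rcases hzX with h3 | h3
    · rw [h3]
      exact hz0
    · exact h3
  have hy'C : y' ∈ C := Finset.mem_filter.2 ⟨hy'X, hy'⟩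
  exact hP z y' x w hzy hxy'.symm hxw (fun h => hxz h.symm) (hCanti y' hy'C w hw)
    (hCanti z hzC w hw)

omit [Fintype W] in
/-- Seinsche's theorem -/
lemma seinsche (hP : NoP4 F) : ∀ X : Finset W, 2 ≤ X.card → Split F X ∨ Split Fᶜ X := by
  intro X
  induction X using Finset.induction_on with
  | empty =>
    intro h
    simp at h
  | insert x X hx ih =>
    intro hcard
    rw [Finset.card_insert_of_notMem hx] at hcard
    by_cases h2 : 2 ≤ X.card
    · rcases ih h2 with h | h
      · exact split_insert F hP hx h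
      · have h3 := split_insert Fᶜ (noP4_compl F hP) hx h
        rw [compl_compl] at h3
        exact h3.symm
    · obtain ⟨y, hy⟩ := Finset.card_eq_one.1 (show X.card = 1 by omega)
      subst hy
      have hxy : x ≠ y := fun h => hx (Finset.mem_singleton.2 h)
      by_cases hadj : F.Adj x y
      · right
        refine ⟨{x}, {y}, by rw [Finset.insert_eq], by simpa using hxy,
          Finset.singleton_nonempty x, Finset.singleton_nonempty y, ?_⟩
        intro a ha b hb hab
        rw [Finset.mem_singleton] at ha hb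
        rw [ha, hb] at hab
        exact ((SimpleGraph.compl_adj _ _ _).1 hab).2 hadj
      · left
        refine ⟨{x}, {y}, by rw [Finset.insert_eq], by simpa using hxy,
          Finset.singleton_nonempty x, Finset.singleton_nonempty y, ?_⟩
        intro a ha b hb hab
        rw [Finset.mem_singleton] at ha hb
        rw [ha, hb] at hab
        exact hadj hab

/-- three vertices of `A` with exactly one edge between them -/
def HasCo (A : Finset W) : Prop :=
  ∃ a ∈ A, ∃ b ∈ A, ∃ c ∈ A, F.Adj a b ∧ ¬ F.Adj a c ∧ ¬ F.Adj b c ∧ a ≠ c ∧ b ≠ c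

omit [Fintype W] [DecidableEq W] in
lemma co_embedding {A B : Finset W} (hAB : ∀ a ∈ A, ∀ b ∈ B, F.Adj a b) (hA : HasCo F A)
    (hB : HasCo F B) :
    Nonempty ((SimpleGraph.pathGraph 3 ⊕g SimpleGraph.pathGraph 3)ᶜ ↪g F) := by
  obtain ⟨a, ha, b, hb, c, hc, hab, hac, hbc, hac', hbc'⟩ := hA
  obtain ⟨a1, ha1, b1, hb1, c1, hc1, hab1, hac1, hbc1, hac1', hbc1'⟩ := hB
  have hM : ∀ x ∈ A, ∀ y ∈ B, F.Adj x y ∧ F.Adj y x ∧ x ≠ y ∧ y ≠ x := fun x hx y hy =>
    ⟨hAB x hx y hy, (hAB x hx y hy).symm, (hAB x hx y hy).ne, (hAB x hx y hy).ne.symm⟩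
  set f : Fin 3 ⊕ Fin 3 → W := Sum.elim ![a, c, b] ![a1, c1, b1] with hf
  have key : ∀ x y : Fin 3 ⊕ Fin 3,
      (F.Adj (f x) (f y) ↔ (SimpleGraph.pathGraph 3 ⊕g SimpleGraph.pathGraph 3)ᶜ.Adj x y) ∧
      (x ≠ y → f x ≠ f y) := by
    have s1 := hab.symm
    have s2 : ¬ F.Adj c a := fun h => hac h.symm
    have s3 : ¬ F.Adj c b := fun h => hbc h.symm
    have s4 := hab1.symm
    have s5 : ¬ F.Adj c1 a1 := fun h => hac1 h.symm
    have s6 : ¬ F.Adj c1 b1 := fun h => hbc1 h.symm
    have t1 := hab.ne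
    have t2 := hab.ne.symm
    have t3 := hac'.symm
    have t4 := hbc'.symm
    have t5 := hab1.ne
    have t6 := hab1.ne.symm
    have t7 := hac1'.symm
    have t8 := hbc1'.symm
    obtain ⟨m1, m2, m3, m4⟩ := hM a ha a1 ha1
    obtain ⟨m5, m6, m7, m8⟩ := hM a ha b1 hb1
    obtain ⟨m9, m10, m11, m12⟩ := hM a ha c1 hc1
    obtain ⟨n1, n2, n3, n4⟩ := hM b hb a1 ha1
    obtain ⟨n5, n6, n7, n8⟩ := hM b hb b1 hb1
    obtain ⟨n9, n10, n11, n12⟩ := hM b hb c1 hc1
    obtain ⟨o1, o2, o3, o4⟩ := hM c hc a1 ha1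
    obtain ⟨o5, o6, o7, o8⟩ := hM c hc b1 hb1
    obtain ⟨o9, o10, o11, o12⟩ := hM c hc c1 hc1
    have hpath : ∀ i j : Fin 3, (SimpleGraph.pathGraph 3).Adj i j ↔
        (i.val + 1 = j.val ∨ j.val + 1 = i.val) := by
      intro i j
      rw [SimpleGraph.pathGraph_adj]
    have hll : ∀ i j : Fin 3, (SimpleGraph.pathGraph 3 ⊕g SimpleGraph.pathGraph 3).Adj
        (Sum.inl i) (Sum.inl j) ↔ (i.val + 1 = j.val ∨ j.val + 1 = i.val) := by
      intro i j
      rw [← hpath]
      simp
    have hrr : ∀ i j : Fin 3, (SimpleGraph.pathGraph 3 ⊕g SimpleGraph.pathGraph 3).Adj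
        (Sum.inr i) (Sum.inr j) ↔ (i.val + 1 = j.val ∨ j.val + 1 = i.val) := by
      intro i j
      rw [← hpath]
      simp
    rintro (i | i) (j | j)
    · rw [SimpleGraph.compl_adj]
      simp only [hll, hf, Sum.elim_inl, ne_eq, Sum.inl.injEq]
      fin_cases i <;> fin_cases j <;> simp_all
    · rw [SimpleGraph.compl_adj]
      fin_cases i <;> fin_cases j <;> simp_all
    · rw [SimpleGraph.compl_adj]
      fin_cases i <;> fin_cases j <;> simp_all
    · rw [SimpleGraph.compl_adj]
      simp only [hrr, hf, Sum.elim_inr, ne_eq, Sum.inr.injEq]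
      fin_cases i <;> fin_cases j <;> simp_all
  refine ⟨⟨⟨f, ?_⟩, ?_⟩⟩
  · intro x y hxy
    by_contra hne
    exact (key x y).2 hne hxy
  · intro x y
    exact (key x y).1

omit [DecidableEq W] in
/-- the nonadjacency class of a vertex -/
lemma exists_class {A : Finset W} (hA : ¬ HasCo F A) (hne : A.Nonempty)
    (hAB : ∀ a ∈ A, ∀ b ∉ A, F.Adj a b) : ∃ A' : Finset W, A'.Nonempty ∧
      (∀ a ∈ A', ∀ b ∈ A', ¬ F.Adj a b) ∧ ∀ a ∈ A', ∀ b ∉ A', F.Adj a b := by
  obtain ⟨a0, ha0⟩ := hne
  refine ⟨A.filter (fun a => ¬ F.Adj a0 a), ⟨a0, Finset.mem_filter.2 ⟨ha0, fun h => h.ne rfl⟩⟩,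
    ?_, ?_⟩
  · intro a ha b hb hab
    rw [Finset.mem_filter] at ha hb
    apply hA
    refine ⟨a, ha.1, b, hb.1, a0, ha0, hab, fun h => ha.2 h.symm, fun h => hb.2 h.symm, ?_, ?_⟩
    · rintro rfl
      exact hb.2 hab
    · rintro rfl
      exact ha.2 hab.symm
  · intro a ha b hb
    rw [Finset.mem_filter] at ha
    by_cases hbA : b ∈ A
    · have h1 : F.Adj a0 b := by
        by_contra h
        exact hb (Finset.mem_filter.2 ⟨hbA, h⟩)
      by_contra hab
      apply hA
      refine ⟨a0, ha0, b, hbA, a, ha.1, h1, ha.2, fun h => hab h.symm, ?_, ?_⟩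
      · rintro rfl
        exact hab h1
      · rintro rfl
        exact ha.2 h1
    · exact hAB a ha.1 b hbA

end

/-- The theorem for the graphs without induced `P_4` and co-`2P_3`. -/
theorem poly_cog (t : ℕ) : ∀ (n : ℕ) (W : Type) [Fintype W] (F : SimpleGraph W),
    Fintype.card W ≤ n → IsEmpty (SimpleGraph.pathGraph 4 ↪g F) →
    IsEmpty ((SimpleGraph.pathGraph 3 ⊕g SimpleGraph.pathGraph 3)ᶜ ↪g F) → Poly t F := by
  intro n
  induction n with
  | zero =>
    intro W _ F hcard h1 h2
    have hW : IsEmpty W := Fintype.card_eq_zero_iff.mp (Nat.le_zero.mp hcard)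
    refine ⟨0, 0, fun V _ G _ hF => ?_⟩
    exact absurd hF (fun h => h.false
      ⟨⟨fun x => hW.elim x, fun x => hW.elim x⟩, fun {x} => hW.elim x⟩)
  | succ n ih =>
    intro W _ F hcard h4 hco
    have hsub : ∀ (A : Set W), (∃ x, x ∉ A) → Poly t (F.induce A) := by
      intro A hA
      obtain ⟨x, hx⟩ := hA
      apply ih A (F.induce A)
      · have h1 : Fintype.card A < Fintype.card W := by
          apply Fintype.card_lt_of_injective_of_notMem (fun a : A => a.1)
            Subtype.val_injective (b := x)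
          rintro ⟨a, ha⟩
          simp only at ha
          exact hx (ha ▸ a.2)
        omega
      · exact ⟨fun φ => h4.false ((SimpleGraph.Embedding.induce A).comp φ)⟩
      · exact ⟨fun φ => hco.false ((SimpleGraph.Embedding.induce A).comp φ)⟩
    by_cases hc2 : 2 ≤ (Finset.univ : Finset W).card
    · rcases seinsche F (noP4_of_free F h4) Finset.univ hc2 with h | h
      · obtain ⟨A, B, hAB, hd, hA, hB, hanti⟩ := h
        have hB' : ∀ x, x ∉ (A : Set W) → x ∈ B := by
          intro x hx
          have h1 : x ∈ A ∪ B := by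
            rw [← hAB]
            exact Finset.mem_univ x
          exact (Finset.mem_union.1 h1).resolve_left hx
        refine poly_union_aux (hsub (A : Set W) ?_) (hsub (A : Set W)ᶜ ?_) ?_
        · obtain ⟨b, hb⟩ := hB
          exact ⟨b, fun h => (Finset.disjoint_left.1 hd) h hb⟩
        · obtain ⟨a, ha⟩ := hA
          exact ⟨a, fun h => h ha⟩
        intro V G φ₁ φ₂ hφ
        refine ⟨⟨⟨fun x => if hx : x ∈ (A : Set W) then φ₁ ⟨x, hx⟩ else φ₂ ⟨x, hx⟩, ?_⟩, ?_⟩⟩
        · intro x y hxy
          simp only at hxy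
          split_ifs at hxy with h1 h2 h2
          · exact congrArg Subtype.val (φ₁.injective hxy)
          · exact absurd hxy (hφ _ _).1
          · exact absurd hxy.symm (hφ _ _).1
          · exact congrArg Subtype.val (φ₂.injective hxy)
        · intro x y
          simp only [Function.Embedding.coeFn_mk]
          by_cases h1 : x ∈ (A : Set W) <;> by_cases h2 : y ∈ (A : Set W)
          · rw [dif_pos h1, dif_pos h2]
            exact φ₁.map_adj_iff
          · rw [dif_pos h1, dif_neg h2]
            constructor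
            · intro h
              exact absurd h (hφ _ _).2
            · intro h
              exact absurd h (hanti x h1 y (hB' y h2))
          · rw [dif_neg h1, dif_pos h2]
            constructor
            · intro h
              exact absurd h.symm (hφ _ _).2
            · intro h
              exact absurd h.symm (hanti y h2 x (hB' x h1))
          · rw [dif_neg h1, dif_neg h2]
            exact φ₂.map_adj_iff
      · obtain ⟨A, B, hAB, hd, hA, hB, hanti⟩ := h
        have hcompl : ∀ a ∈ A, ∀ b ∈ B, F.Adj a b := by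
          intro a ha b hb
          by_contra hab
          refine hanti a ha b hb ((SimpleGraph.compl_adj _ _ _).2 ⟨?_, hab⟩)
          rintro rfl
          exact (Finset.disjoint_left.1 hd) ha hb
        have hmem : ∀ x, x ∈ A ∨ x ∈ B := by
          intro x
          have h1 : x ∈ A ∪ B := by
            rw [← hAB]
            exact Finset.mem_univ x
          exact Finset.mem_union.1 h1
        obtain ⟨A', hA'ne, hA's, hA'c⟩ : ∃ A' : Finset W, A'.Nonempty ∧
            (∀ a ∈ A', ∀ b ∈ A', ¬ F.Adj a b) ∧ ∀ a ∈ A', ∀ b ∉ A', F.Adj a b := by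
          by_cases hcoA : HasCo F A
          · by_cases hcoB : HasCo F B
            · obtain ⟨φ⟩ := co_embedding F hcompl hcoA hcoB
              exact (hco.false φ).elim
            · exact exists_class F hcoB hB (fun b hb a ha =>
                (hcompl a ((hmem a).resolve_right ha) b hb).symm)
          · exact exists_class F hcoA hA (fun a ha b hb =>
              hcompl a ha b ((hmem b).resolve_left hb))
        refine poly_join F A' hA's hA'c (hsub _ ?_)
        obtain ⟨a, ha⟩ := hA'ne
        exact ⟨a, by simpa using ha⟩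
    · -- at most one vertex
      refine ⟨0, 0, fun V _ G _ hF => ?_⟩
      have hV : IsEmpty V := by
        by_contra hV
        rw [not_isEmpty_iff] at hV
        obtain ⟨v⟩ := hV
        have hsubs : ∀ x y : W, x = y := by
          intro x y
          by_contra hxy
          apply hc2
          calc 2 = ({x, y} : Finset W).card := (Finset.card_pair hxy).symm
            _ ≤ _ := Finset.card_le_card (Finset.subset_univ _)
        refine hF.false ⟨⟨fun _ => v, fun x y _ => hsubs x y⟩, ?_⟩
        intro x y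
        rw [hsubs x y]
        simp
      have : G.Colorable 0 := by
        refine ⟨SimpleGraph.Coloring.mk (fun v => (hV.elim v)) ?_⟩
        intro v
        exact hV.elim v
      exact this.mono (Nat.zero_le _)

end Pool.Agent.Helper20.Dense
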