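import Mathlib
import Pool.Agent.Helper20.SJ.Join

/-!
Graphs without long induced paths in which no `s` vertices have an induced copy of `F` in their
common neighbourhood.
-/

open Finset
open scoped Classical

namespace Pool.Agent.Helper20.Dense

theorem comm_bound {t : ℕ} {W : Type} (F : SimpleGraph W) {C g : ℕ}
    (hF : ∀ (V : Type) [Fintype V] (G : SimpleGraph V),
      IsEmpty (SimpleGraph.pathGraph t ↪g G) → IsEmpty (F ↪g G) →
        G.Colorable (C * G.cliqueNum ^ g)) :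
    ∃ C' : ℕ, ∀ s : ℕ, 1 ≤ s → ∀ (V : Type) [Fintype V] (G : SimpleGraph V),
      IsEmpty (SimpleGraph.pathGraph t ↪g G) →
      (∀ S : Finset V, S.card = s → ¬ ∃ φ : F ↪g G, ∀ v ∈ S, ∀ w, G.Adj v (φ w)) →
        G.Colorable (C' * s ^ (t + 3) * G.cliqueNum ^ g) := by
  refine ⟨8 ^ (t + 1) * (2 * C + 128), ?_⟩
  intro s hs V _ G hfree hno
  rw [← isCol_univ_iff, ← chi_le_iff]
  by_cases hVe : (Finset.univ : Finset V) = ∅
  · rw [hVe, chi_empty]
    exact Nat.zero_le _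
  have hω : 1 ≤ om G Finset.univ := om_pos G (Finset.nonempty_iff_ne_empty.mpr hVe)
  set ω := om G Finset.univ with hωdef
  have hcore := core G hfree (s := 2 * s) (m := s) (τ := 2 * (C * ω ^ g)) (by omega) (by
    intro Z hZ
    by_contra hcon
    push Not at hcon
    obtain ⟨S, hS, hSc⟩ := Finset.exists_subset_card_eq
      (show s ≤ (near G (2 * s) Z).card by omega)
    have h1 := common_nbhd G hS hSc
    set Q := Z.filter (fun z => ∀ v ∈ S, G.Adj v z) with hQ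
    have h2 : ∃ φ : F ↪g G, ∀ w, φ w ∈ Q := by
      by_contra hno'
      have h3 := poly_apply G hF hfree Q hno'
      have h4 : C * (om G Q) ^ g ≤ C * ω ^ g :=
        Nat.mul_le_mul_left _ (Nat.pow_le_pow_left (om_mono G (Finset.subset_univ _)) g)
      omega
    obtain ⟨φ, hφ⟩ := h2
    exact hno S hSc ⟨φ, fun v hv w => (Finset.mem_filter.1 (hφ w)).2 v hv⟩)
  have hωle : ω ≤ G.cliqueNum := om_univ_le G
  set x := G.cliqueNum with hx
  have hx1 : 1 ≤ x := hω.trans hωle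
  have hxg : 1 ≤ x ^ g := Nat.one_le_pow _ _ hx1
  have hωg : ω ^ g ≤ x ^ g := Nat.pow_le_pow_left hωle g
  have hs2 : 1 ≤ s ^ 2 := Nat.one_le_pow _ _ hs
  have e1 : 2 * (C * ω ^ g) ≤ 2 * C * (s ^ 2 * x ^ g) := by
    calc 2 * (C * ω ^ g) ≤ 2 * (C * x ^ g) :=
          Nat.mul_le_mul_left _ (Nat.mul_le_mul_left _ hωg)
      _ = 2 * C * (1 * x ^ g) := by ring
      _ ≤ 2 * C * (s ^ 2 * x ^ g) := Nat.mul_le_mul_left _ (Nat.mul_le_mul_right _ hs2)
  have e2 : 2 * (2 * s) * (s + 1) + 30 * (s + 1) ^ 2 ≤ 128 * (s ^ 2 * x ^ g) := by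
    calc 2 * (2 * s) * (s + 1) + 30 * (s + 1) ^ 2 ≤ 128 * (s ^ 2 * 1) := by nlinarith
      _ ≤ 128 * (s ^ 2 * x ^ g) := Nat.mul_le_mul_left _ (Nat.mul_le_mul_left _ hxg)
  calc chi G Finset.univ ≤ (4 * (2 * s)) ^ (t + 1) *
        (2 * (C * ω ^ g) + 2 * (2 * s) * (s + 1) + 30 * (s + 1) ^ 2) := hcore
    _ ≤ (4 * (2 * s)) ^ (t + 1) * ((2 * C + 128) * (s ^ 2 * x ^ g)) := by
        refine Nat.mul_le_mul_left _ ?_
        have : (2 * C + 128) * (s ^ 2 * x ^ g) =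
          2 * C * (s ^ 2 * x ^ g) + 128 * (s ^ 2 * x ^ g) := by ring
        omega
    _ = 8 ^ (t + 1) * (2 * C + 128) * s ^ (t + 3) * x ^ g := by
        have h8 : 4 * (2 * s) = 8 * s := by ring
        rw [h8, mul_pow, show t + 3 = (t + 1) + 2 by ring, pow_add s (t + 1) 2]
        ring

end Pool.Agent.Helper20.Dense
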