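import Mathlib
import Pool.Agent.Helper20.SJ.Join

/-!
Graphs without long induced paths and without large complete multipartite subgraphs.
-/

open Finset
open scoped Classical

namespace Pool.Agent.Helper20.Dense

/-- `X` contains the complete `d`-partite graph with parts of size `s` (as a subgraph) -/
def HasMulti {V : Type} (G : SimpleGraph V) (d s : ℕ) (X : Finset V) : Prop :=
  ∃ f : Fin d × Fin s → V, Function.Injective f ∧ (∀ p, f p ∈ X) ∧
    ∀ p q, p.1 ≠ q.1 → G.Adj (f p) (f q)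

lemma hasMulti_succ' {V : Type} [Fintype V] (G : SimpleGraph V) {d s : ℕ} {S Z : Finset V}
    (hSc : S.card = s) (h : HasMulti G d s (Z.filter (fun z => ∀ v ∈ S, G.Adj v z))) :
    HasMulti G (d + 1) s Finset.univ := by
  obtain ⟨f, hf, hfZ, hfa⟩ := h
  have e : Fin s ≃ S := (Finset.equivFinOfCardEq hSc).symm
  have hadj : ∀ (j : Fin s) (p : Fin d × Fin s), G.Adj (e j : V) (f p) := fun j p =>
    (Finset.mem_filter.1 (hfZ p)).2 _ (e j).2
  refine ⟨fun p => if h : p.1 = 0 then (e p.2 : V) else f (p.1.pred h, p.2), ?_, ?_, ?_⟩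
  · rintro ⟨i, j⟩ ⟨i', j'⟩ hij
    simp only at hij
    by_cases h0 : i = 0 <;> by_cases h0' : i' = 0
    · rw [dif_pos h0, dif_pos h0'] at hij
      rw [h0, h0', e.injective (Subtype.ext hij)]
    · rw [dif_pos h0, dif_neg h0'] at hij
      exact absurd hij (hadj _ _).ne
    · rw [dif_neg h0, dif_pos h0'] at hij
      exact absurd hij.symm (hadj _ _).ne
    · rw [dif_neg h0, dif_neg h0'] at hij
      have h1 := hf hij
      rw [Prod.mk.injEq] at h1
      rw [Fin.pred_inj.1 h1.1, h1.2]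
  · intro p
    exact Finset.mem_univ _
  · rintro ⟨i, j⟩ ⟨i', j'⟩ hne
    simp only at hne ⊢
    by_cases h0 : i = 0 <;> by_cases h0' : i' = 0
    · rw [h0, h0'] at hne
      exact absurd rfl hne
    · rw [dif_pos h0, dif_neg h0']
      exact hadj _ _
    · rw [dif_neg h0, dif_pos h0']
      exact (hadj _ _).symm
    · rw [dif_neg h0, dif_neg h0']
      refine hfa _ _ ?_
      intro h1
      have h2 : i.pred h0 = i'.pred h0' := h1
      exact hne (Fin.pred_inj.1 h2)

/-- transfer to an induced subgraph -/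
lemma hasMulti_induce {V : Type} [Fintype V] (G : SimpleGraph V) {d s : ℕ} {X : Finset V}
    (h : HasMulti (G.induce (X : Set V)) d s Finset.univ) : HasMulti G d s X := by
  obtain ⟨f, hf, -, hfa⟩ := h
  exact ⟨fun p => (f p : V), fun p q hpq => hf (Subtype.ext hpq), fun p => (f p).2,
    fun p q hpq => hfa p q hpq⟩

/-- the numerical estimate -/
lemma multi_num {s t E : ℕ} (hs : 1 ≤ s) :
    (4 * (2 * s)) ^ (t + 1) * (2 * (s + 1) ^ E + 2 * (2 * s) * (s + 1) + 30 * (s + 1) ^ 2) ≤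
      (s + 1) ^ (E + 4 * (t + 3)) := by
  have h2 : 2 ≤ s + 1 := by omega
  have h8 : 4 * (2 * s) ≤ (s + 1) ^ 4 := by
    calc 4 * (2 * s) ≤ 2 ^ 3 * (s + 1) := by omega
      _ ≤ (s + 1) ^ 3 * (s + 1) := Nat.mul_le_mul_right _ (Nat.pow_le_pow_left h2 3)
      _ = (s + 1) ^ 4 := by ring
  have h1 : 1 ≤ (s + 1) ^ E := Nat.one_le_pow _ _ (by omega)
  have h1' : 1 ≤ (s + 1) ^ 2 := Nat.one_le_pow _ _ (by omega)
  have e1 : 2 * (s + 1) ^ E ≤ 2 * ((s + 1) ^ E * (s + 1) ^ 2) :=
    Nat.mul_le_mul_left _ (Nat.le_mul_of_pos_right _ h1')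
  have e2 : 2 * (2 * s) * (s + 1) ≤ 4 * ((s + 1) ^ E * (s + 1) ^ 2) := by
    calc 2 * (2 * s) * (s + 1) ≤ 4 * (1 * (s + 1) ^ 2) := by nlinarith
      _ ≤ _ := Nat.mul_le_mul_left _ (Nat.mul_le_mul_right _ h1)
  have e3 : 30 * (s + 1) ^ 2 ≤ 30 * ((s + 1) ^ E * (s + 1) ^ 2) := by
    refine Nat.mul_le_mul_left _ ?_
    exact Nat.le_mul_of_pos_left _ h1
  calc (4 * (2 * s)) ^ (t + 1) * (2 * (s + 1) ^ E + 2 * (2 * s) * (s + 1) + 30 * (s + 1) ^ 2)
      ≤ ((s + 1) ^ 4) ^ (t + 1) * (2 ^ 6 * ((s + 1) ^ E * (s + 1) ^ 2)) := by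
        refine Nat.mul_le_mul (Nat.pow_le_pow_left h8 _) ?_
        omega
    _ ≤ ((s + 1) ^ 4) ^ (t + 1) * ((s + 1) ^ 6 * ((s + 1) ^ E * (s + 1) ^ 2)) :=
        Nat.mul_le_mul_left _ (Nat.mul_le_mul_right _ (Nat.pow_le_pow_left h2 6))
    _ = (s + 1) ^ (E + 4 * (t + 3)) := by
        rw [← pow_mul, ← pow_add, ← pow_add, ← pow_add]
        congr 1
        ring

/-- The theorem on complete multipartite subgraphs. -/
theorem multi (t s : ℕ) (hs : 1 ≤ s) : ∀ (d : ℕ) (V : Type) [Fintype V] (G : SimpleGraph V),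
    IsEmpty (SimpleGraph.pathGraph t ↪g G) → ¬ HasMulti G d s Finset.univ →
      G.Colorable ((s + 1) ^ (d * (4 * (t + 3)))) := by
  intro d
  induction d with
  | zero =>
    intro V _ G _ h
    exfalso
    apply h
    exact ⟨fun p => p.1.elim0, fun p => p.1.elim0, fun p => p.1.elim0, fun p => p.1.elim0⟩
  | succ d ih =>
    intro V _ G hfree hno
    rw [← isCol_univ_iff, ← chi_le_iff]
    have hcore := core G hfree (s := 2 * s) (m := s)
      (τ := 2 * (s + 1) ^ (d * (4 * (t + 3)))) (by omega) (by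
      intro Z hZ
      by_contra hcon
      push Not at hcon
      obtain ⟨S, hS, hSc⟩ := Finset.exists_subset_card_eq
        (show s ≤ (near G (2 * s) Z).card by omega)
      have h1 := common_nbhd G hS hSc
      set Q := Z.filter (fun z => ∀ v ∈ S, G.Adj v z) with hQ
      apply hno
      refine hasMulti_succ' G (Z := Z) hSc (hasMulti_induce G ?_)
      by_contra h2
      have h3 := ih _ (G.induce (Q : Set V)) (free_induce G hfree Q) h2
      rw [← isCol_iff, ← chi_le_iff] at h3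
      omega)
    refine hcore.trans ?_
    have h := multi_num (s := s) (t := t) (E := d * (4 * (t + 3))) hs
    have h' : (d + 1) * (4 * (t + 3)) = d * (4 * (t + 3)) + 4 * (t + 3) := by ring
    rw [h']
    exact h

end Pool.Agent.Helper20.Dense
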