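import Mathlib
import Pool.Agent.Helper20.SJ.Comm
import Pool.Agent.Helper20.SJ.Cog
import Pool.Agent.Helper20.SJ.Multi

open Finset
open scoped Classical

namespace Pool.Agent.Results.MP_4fa23e_co.StableJoins

/-- `G` contains no induced path on `t` vertices. -/
def PathFree (t : ℕ) {V : Type} (G : SimpleGraph V) : Prop :=
  IsEmpty (SimpleGraph.pathGraph t ↪g G)

/-- Every finite graph `G` without an induced `P_t` and without an induced `F` satisfies
`χ(G) ≤ C ω(G) ^ g`. -/
def BoundedBy (t : ℕ) {W : Type} (F : SimpleGraph W) (C g : ℕ) : Prop :=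
  ∀ (V : Type) [Fintype V] (G : SimpleGraph V), PathFree t G → IsEmpty (F ↪g G) →
    G.Colorable (C * G.cliqueNum ^ g)

/-- The class of `{P_t, F}`-free graphs is polynomially chi-bounded. -/
def PolyBounded (t : ℕ) {W : Type} (F : SimpleGraph W) : Prop :=
  ∃ C g : ℕ, BoundedBy t F C g

theorem result (t : ℕ) :
    (∀ (W : Type) (F : SimpleGraph W) (C g : ℕ), BoundedBy t F C g →
      ∃ C' : ℕ, ∀ s : ℕ, 1 ≤ s → ∀ (V : Type) [Fintype V] (G : SimpleGraph V), PathFree t G →
        (∀ S : Finset V, S.card = s → ¬ ∃ φ : F ↪g G, ∀ v ∈ S, ∀ w, G.Adj v (φ w)) →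
          G.Colorable (C' * s ^ (t + 3) * G.cliqueNum ^ g)) ∧
    (∀ (W : Type) [Fintype W] (F : SimpleGraph W) (A : Set W),
      (∀ a ∈ A, ∀ b ∈ A, ¬ F.Adj a b) → (∀ a ∈ A, ∀ b ∉ A, F.Adj a b) →
        PolyBounded t (F.induce Aᶜ) → PolyBounded t F) ∧
    (∀ (W : Type) [Fintype W] (F : SimpleGraph W), IsEmpty (SimpleGraph.pathGraph 4 ↪g F) →
      IsEmpty ((SimpleGraph.pathGraph 3 ⊕g SimpleGraph.pathGraph 3)ᶜ ↪g F) → PolyBounded t F) ∧
    (∀ d s : ℕ, 1 ≤ s → ∀ (V : Type) [Fintype V] (G : SimpleGraph V), PathFree t G →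
      (SimpleGraph.completeEquipartiteGraph d s).Free G →
        G.Colorable ((s + 1) ^ (4 * d * (t + 3)))) := by
  refine ⟨?_, ?_, ?_, ?_⟩
  · intro W F C g h
    exact Pool.Agent.Helper20.Dense.comm_bound F h
  · intro W _ F A hA hAc h
    refine Pool.Agent.Helper20.Dense.poly_join F A.toFinset (fun a ha b hb => hA a (by simpa using ha) b
      (by simpa using hb)) (fun a ha b hb => hAc a (by simpa using ha) b (by simpa using hb)) ?_
    have h1 : ((A.toFinsetᶜ : Finset W) : Set W) = Aᶜ := by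
      rw [Finset.coe_compl, Set.coe_toFinset]
    rw [h1]
    exact h
  · intro W _ F h4 hco
    exact Pool.Agent.Helper20.Dense.poly_cog t (Fintype.card W) W F le_rfl h4 hco
  · intro d s hs V _ G hfree hno
    have h1 := Pool.Agent.Helper20.Dense.multi t s hs d V G hfree (by
      rintro ⟨f, hf, -, hfa⟩
      exact hno ⟨⟨⟨f, fun {p q} hpq => hfa p q
        (SimpleGraph.completeEquipartiteGraph_adj.1 hpq)⟩, hf⟩⟩)
    have h2 : d * (4 * (t + 3)) = 4 * d * (t + 3) := by ring
    rw [h2] at h1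
    exact h1

end Pool.Agent.Results.MP_4fa23e_co.StableJoins
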